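import Pool.Agent.V8H90.AJ.Good

/-!
General hyperplanes have many invariant polynomials.
-/

set_option autoImplicit false

namespace Pool.Agent.V8H90.AJ

open MvPolynomial Pool.Agent.V8H90.JT

attribute [local instance] MvPolynomial.algebraMvPolynomial

section descent

variable {v q q0 d : ℕ}

/-- invariant polynomials for some of the members of a family of linear forms -/
structure Rel {A : Type} [CommRing A] (x : Fin q → Fin (v + 1) → A) (q0 d : ℕ)
    (R : MvPolynomial (Fin 2 × Fin (v + 1)) A) : Prop where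
  ex : ∃ s : Fin q0 → Fin q, Function.Injective s ∧ ∀ i, Van (x (s i)) R
  hom : R.IsHomogeneous d
  inv : Inv 1 R

theorem Rel.red {k : Type} [Field k] {Λ : Type} [Field Λ] [Algebra k Λ]
    {x : Fin q → Fin (v + 1) → k} {R : MvPolynomial (Fin 2 × Fin (v + 1)) Λ}
    (h : Rel (fun i j => algebraMap k Λ (x i j)) q0 d R) (f : Λ →ₗ[k] k) :
    Rel x q0 d (red f R) := by
  obtain ⟨⟨s, hs, hv⟩, hh, hi⟩ := h
  refine ⟨⟨s, hs, fun i w hw => ?_⟩, red_hom hh, fun g U hg => ?_⟩
  · rw [eval_red]
    have h1 := hv i (fun y => algebraMap k Λ (w y)) fun m => by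
      have h2 := congrArg (algebraMap k Λ) (hw m)
      rw [map_sum, map_zero] at h2
      simp only [map_mul] at h2
      exact h2
    rw [h1, map_zero]
  · unfold ev
    rw [eval_red, eval_red]
    have h1 := hi (PowerSeries.map (algebraMap k Λ) g)
      (fun i => PowerSeries.map (algebraMap k Λ) (U i)) (by
        obtain ⟨g', hg'⟩ := hg
        refine ⟨PowerSeries.map (algebraMap k Λ) g', ?_⟩
        have h2 := congrArg (PowerSeries.map (algebraMap k Λ)) hg'
        rw [map_sub, map_one, map_mul, map_pow, PowerSeries.map_X] at h2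
        exact h2)
    unfold ev at h1
    simp only [← map_mul, PowerSeries.coeff_map] at h1
    rw [h1]

/-- descent to a subring with given field of fractions -/
theorem Rel.frac {A E : Type} [CommRing A] [IsDomain A] [Field E] [Algebra A E]
    [IsFractionRing A E] {x : Fin q → Fin (v + 1) → A}
    {R : MvPolynomial (Fin 2 × Fin (v + 1)) E}
    (h : Rel (fun i j => algebraMap A E (x i j)) q0 d R) :
    ∃ (a : A) (R' : MvPolynomial (Fin 2 × Fin (v + 1)) A), a ≠ 0 ∧
      map (algebraMap A E) R' = C (algebraMap A E a) * R ∧ Rel x q0 d R' := by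
  obtain ⟨⟨R', y⟩, hy⟩ := IsLocalization.surj
    ((nonZeroDivisors A).map (C (σ := Fin 2 × Fin (v + 1)) (R := A))) R
  obtain ⟨a, ha, hay⟩ := y.2
  have hinj : Function.Injective (algebraMap A E) := IsFractionRing.injective A E
  have ha0 : a ≠ 0 := nonZeroDivisors.ne_zero ha
  have hE0 : algebraMap A E a ≠ 0 := fun h0 => ha0 (hinj (by rw [h0, map_zero]))
  have h1 : map (algebraMap A E) R' = C (algebraMap A E a) * R := by
    simp only at hy
    rw [← hay] at hy
    have h2 : ∀ z : MvPolynomial (Fin 2 × Fin (v + 1)) A, algebraMap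
      (MvPolynomial (Fin 2 × Fin (v + 1)) A) (MvPolynomial (Fin 2 × Fin (v + 1)) E) z =
        map (algebraMap A E) z := fun _ => rfl
    rw [h2, h2] at hy
    rw [← hy]
    change R * map (algebraMap A E) (C a) = _
    rw [map_C, mul_comm]
  have hev : ∀ w : Fin 2 × Fin (v + 1) → A, algebraMap A E (eval w R') =
      algebraMap A E a * eval (fun y => algebraMap A E (w y)) R := by
    intro w
    have h2 : algebraMap A E (eval w R') = eval (fun y => algebraMap A E (w y))
        (map (algebraMap A E) R') := by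
      rw [eval_map, ← eval₂_id, eval₂_comp_left (algebraMap A E), RingHom.comp_id]
      rfl
    rw [h2, h1, map_mul, eval_C]
  obtain ⟨⟨s, hs, hv⟩, hh, hi⟩ := h
  refine ⟨a, R', ha0, h1, ⟨s, hs, fun i w hw => ?_⟩, ?_, fun g U hg => ?_⟩
  · apply hinj
    rw [hev, map_zero]
    have h2 := hv i (fun y => algebraMap A E (w y)) fun m => by
      have h2 := congrArg (algebraMap A E) (hw m)
      rw [map_sum, map_zero] at h2
      simp only [map_mul] at h2
      exact h2
    rw [h2, mul_zero]
  · intro t ht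
    apply hh
    intro h0
    apply ht
    apply hinj
    have h2 := congrArg (coeff t) h1
    rw [coeff_map, coeff_C_mul, h0, mul_zero] at h2
    rw [h2, map_zero]
  · apply hinj
    unfold ev
    rw [hev, hev]
    have h2 := hi (PowerSeries.map (algebraMap A E) g)
      (fun i => PowerSeries.map (algebraMap A E) (U i)) (by
        obtain ⟨g', hg'⟩ := hg
        refine ⟨PowerSeries.map (algebraMap A E) g', ?_⟩
        have h2 := congrArg (PowerSeries.map (algebraMap A E)) hg'
        rw [map_sub, map_one, map_mul, map_pow, PowerSeries.map_X] at h2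
        exact h2)
    unfold ev at h2
    simp only [← map_mul, PowerSeries.coeff_map] at h2
    rw [h2]

end descent

/-- General hyperplanes. -/
theorem good_general {v q d q0 : ℕ} (hv : 1 ≤ v)
    (h : q0 * (2 * v + d - 1).choose d < (2 * (v + 1) + d - 1).choose d)
    (hq : q0 + 2 * (v + 1) ≤ q) :
    ∃ Ψ : MvPolynomial (Fin q × Fin (v + 1)) ℂ, Ψ ≠ 0 ∧
      ∀ ℓ : Fin q → Fin (v + 1) → ℂ, eval (fun x => ℓ x.1 x.2) Ψ ≠ 0 → Good ℓ d q0 := by
  classical
  -- the generic hyperplanes
  let A : Type := MvPolynomial (Fin q × Fin (v + 1)) ℂ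
  let E : Type := FractionRing A
  let Λ : Type := AlgebraicClosure E
  have hinj : Function.Injective (algebraMap A Λ) := by
    have h1 : (algebraMap A Λ) = (algebraMap E Λ).comp (algebraMap A E) := rfl
    rw [h1]
    exact (algebraMap E Λ).injective.comp (IsFractionRing.injective A E)
  have hΛ0 : CharZero Λ := charZero_of_injective_algebraMap hinj
  let xA : Fin q → Fin (v + 1) → A := fun i j => X (i, j)
  let x : Fin q → Fin (v + 1) → Λ := fun i j => algebraMap A Λ (xA i j)
  have hx : AlgebraicIndependent ℚ fun y : Fin q × Fin (v + 1) => x y.1 y.2 := by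
    have h1 : AlgebraicIndependent ℂ (X : Fin q × Fin (v + 1) → A) :=
      MvPolynomial.algebraicIndependent_X _ _
    have h2 : AlgebraicIndependent ℚ (X : Fin q × Fin (v + 1) → A) := h1.restrictScalars
      (algebraMap ℚ ℂ).injective
    exact h2.map' (f := IsScalarTower.toAlgHom ℚ A Λ) hinj
  -- points over the large field
  have hpt : ∀ p : Fin 2 × Fin (v + 1) → Λ, Mi (fun a b => p (a, b)) →
      ∃ R : MvPolynomial (Fin 2 × Fin (v + 1)) A, Rel xA q0 d R ∧
        eval₂ (algebraMap A Λ) p R ≠ 0 := by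
    intro p hp
    obtain ⟨F, _, _, _, p', s, h1, h2, h3⟩ := exists_sel hx p (q0 := q0) (by
        rw [Fintype.card_prod, Fintype.card_fin, Fintype.card_fin]
        exact hq)
    have hp' : Mi fun a b => p' (a, b) := by
      obtain ⟨i, j, hij⟩ := hp
      refine ⟨i, j, fun h0 => hij ?_⟩
      have h4 := congrArg (algebraMap F Λ) h0
      simpa only [map_sub, map_mul, map_zero, h1] using h4
    obtain ⟨R, h4, h5, h6, h7⟩ := exists_good (k := 1) (n := v) (q := q0) (d := d) (F := F)
      (L := Λ) hv h (p := fun a b => p' (a, b)) hp'.indep (x := fun i j => x (s i) j) h3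
    have e : (fun y : Fin 2 × Fin (v + 1) => algebraMap F Λ (p' (y.1, y.2))) = p :=
      funext fun y => h1 _
    rw [e] at h7
    have hrel : Rel (fun i j => algebraMap E Λ (algebraMap A E (xA i j))) q0 d R :=
      ⟨⟨s, h2, h6⟩, h4, h5⟩
    obtain ⟨f, hf⟩ := exists_red (k := E) h7
    obtain ⟨a, R', ha, hR', hrel'⟩ := (hrel.red f).frac
    refine ⟨R', hrel', ?_⟩
    have h8 : eval₂ (algebraMap A Λ) p R' = aeval p (map (algebraMap A E) R') := by
      rw [aeval_map_algebraMap, aeval_def]
    rw [h8, hR', map_mul]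
    refine mul_ne_zero ?_ hf
    rw [aeval_C]
    intro h0
    have h9 : algebraMap A Λ a = 0 := h0
    exact ha (hinj (by rw [h9, map_zero]))
  -- the ideals
  set S : Set (MvPolynomial (Fin 2 × Fin (v + 1)) A) := {R | Rel xA q0 d R} with hS
  have hD : ∀ i j : Fin (v + 1), ∃ (D : A) (N : ℕ), D ≠ 0 ∧
      C D * (X (0, i) * X (1, j) - X (0, j) * X (1, i)) ^ N ∈ Ideal.span S := by
    intro i j
    set μ : MvPolynomial (Fin 2 × Fin (v + 1)) A := X (0, i) * X (1, j) - X (0, j) * X (1, i)
      with hμ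
    have h1 : map (algebraMap A E) μ ∈ (Ideal.map (algebraMap (MvPolynomial (Fin 2 × Fin (v + 1)) A)
        (MvPolynomial (Fin 2 × Fin (v + 1)) E)) (Ideal.span S)).radical := by
      rw [← vanishingIdeal_zeroLocus_eq_radical (K := Λ), mem_vanishingIdeal_iff]
      intro p hp
      rw [mem_zeroLocus_iff] at hp
      by_contra hne
      obtain ⟨R, hR, hR0⟩ := hpt p ⟨i, j, by
        rw [hμ] at hne
        simpa using hne⟩
      apply hR0
      have h2 := hp (map (algebraMap A E) R) (Ideal.mem_map_of_mem _ (Ideal.subset_span hR))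
      rw [aeval_map_algebraMap, aeval_def] at h2
      exact h2
    obtain ⟨N, hN⟩ := h1
    rw [← map_pow] at hN
    have h2 := (IsLocalization.mem_map_algebraMap_iff
      ((nonZeroDivisors A).map (C (σ := Fin 2 × Fin (v + 1)) (R := A)))
      (MvPolynomial (Fin 2 × Fin (v + 1)) E)).mp hN
    obtain ⟨⟨⟨y, hy⟩, z⟩, hyz⟩ := h2
    obtain ⟨a, ha, haz⟩ := z.2
    refine ⟨a, N, nonZeroDivisors.ne_zero ha, ?_⟩
    have h3 : C a * μ ^ N = y := by
      apply MvPolynomial.map_injective (algebraMap A E) (IsFractionRing.injective A E)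
      simp only at hyz
      rw [← haz] at hyz
      rw [map_mul, mul_comm]
      exact hyz
    rw [h3]
    exact hy
  choose D N hD0 hD using hD
  -- the polynomial
  set Ψ : A := (∏ x : Fin (v + 1) × Fin (v + 1), D x.1 x.2) *
    ((∏ a : {a : Fin (v + 1) → Fin q // Function.Injective a},
      (Matrix.of fun i j => (X (a.1 i, j) : A)).det) *
    ((∏ x : Fin q × Fin q with x.1 ≠ x.2, (X (x.1, 0) * X (x.2, Fin.last v) -
      X (x.1, Fin.last v) * X (x.2, 0))) * ∏ i : Fin q, X (i, 0))) with hΨ
  have h01 : (0 : Fin (v + 1)) ≠ Fin.last v := by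
    intro h0
    have := congrArg Fin.val h0
    simp at this
    omega
  have hΨ0 : Ψ ≠ 0 := by
    refine mul_ne_zero (Finset.prod_ne_zero_iff.mpr fun x _ => hD0 _ _)
      (mul_ne_zero (Finset.prod_ne_zero_iff.mpr fun a _ => ?_)
      (mul_ne_zero (Finset.prod_ne_zero_iff.mpr fun x hx => ?_)
      (Finset.prod_ne_zero_iff.mpr fun i _ => X_ne_zero _)))
    · have h1 : (Matrix.of fun i j => (X (a.1 i, j) : A)).det =
          rename (fun y : Fin (v + 1) × Fin (v + 1) => (a.1 y.1, y.2))
            (Matrix.of fun i j => (X (i, j) : MvPolynomial (Fin (v + 1) × Fin (v + 1)) ℂ)).det := by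
        rw [AlgHom.map_det]
        congr 1
        ext1 i j
        simp
      rw [h1]
      intro h0
      have h2 : Function.Injective fun y : Fin (v + 1) × Fin (v + 1) => (a.1 y.1, y.2) := by
        intro y y' hy
        have e1 : (a.1 y.1, y.2) = (a.1 y'.1, y'.2) := hy
        exact Prod.ext (a.2 (Prod.mk.inj e1).1) (Prod.mk.inj e1).2
      have h3 := rename_injective _ h2 (h0.trans (map_zero _).symm)
      exact Matrix.det_mvPolynomialX_ne_zero (Fin (v + 1)) ℂ h3
    · intro h1
      have hij := (Finset.mem_filter.mp hx).2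
      have h2 := congrArg (eval fun y : Fin q × Fin (v + 1) =>
        if y = (x.1, 0) ∨ y = (x.2, Fin.last v) then (1 : ℂ) else 0) h1
      simp [hij, h01, Ne.symm hij, Ne.symm h01] at h2
  refine ⟨Ψ, hΨ0, fun ℓ hℓ => ?_⟩
  have hℓ1 : eval (fun x => ℓ x.1 x.2) Ψ = _ := rfl
  rw [hΨ, map_mul, map_mul, map_mul, map_prod, map_prod, map_prod, map_prod] at hℓ
  have e1 := left_ne_zero_of_mul hℓ
  have e2 := left_ne_zero_of_mul (right_ne_zero_of_mul hℓ)
  have e3 := left_ne_zero_of_mul (right_ne_zero_of_mul (right_ne_zero_of_mul hℓ))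
  have e4 := right_ne_zero_of_mul (right_ne_zero_of_mul (right_ne_zero_of_mul hℓ))
  rw [Finset.prod_ne_zero_iff] at e1 e2 e3 e4
  refine ⟨fun a ha => ?_, fun i j hij => ?_, fun p hp => ?_⟩
  · have h1 := e2 ⟨a, ha⟩ (Finset.mem_univ _)
    intro h0
    apply h1
    rw [RingHom.map_det, ← h0]
    congr 1
    ext1 i j
    simp
  · refine ⟨0, Fin.last v, fun h0 => e3 (i, j) (Finset.mem_filter.mpr ⟨Finset.mem_univ _, hij⟩) ?_⟩
    simp [h0]
  · obtain ⟨i, j, hij⟩ := hp
    set φ : A →+* ℂ := eval fun x => ℓ x.1 x.2 with hφ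
    set ψ : MvPolynomial (Fin 2 × Fin (v + 1)) A →+* ℂ :=
      eval₂Hom φ (fun y : Fin 2 × Fin (v + 1) => p y.1 y.2) with hψ
    obtain ⟨R, hR, hR0⟩ : ∃ R, Rel xA q0 d R ∧ ψ R ≠ 0 := by
      by_contra hcon
      push Not at hcon
      have h1 : Ideal.span S ≤ RingHom.ker ψ := by
        rw [Ideal.span_le]
        intro R hR
        exact hcon R hR
      have h2 := h1 (hD i j)
      rw [RingHom.mem_ker, map_mul, map_pow] at h2
      have h3 : ψ (X (0, i) * X (1, j) - X (0, j) * X (1, i)) ≠ 0 := by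
        rw [hψ]
        simpa using hij
      have h4 : ψ (C (D i j)) ≠ 0 := by
        rw [hψ, coe_eval₂Hom, eval₂_C]
        exact e1 (i, j) (Finset.mem_univ _)
      exact mul_ne_zero h4 (pow_ne_zero _ h3) h2
    obtain ⟨⟨s, hs, hv'⟩, hh, hi⟩ := hR
    refine ⟨s, map φ R, hs, hh.map φ, hi.map φ, fun i => ?_, ?_⟩
    · have h5 := Van.map (k := 1) hh (hv' i) φ (by
        have := e4 (s i) (Finset.mem_univ _)
        exact this)
      have e5 : (fun j => φ (xA (s i) j)) = ℓ (s i) := by
        funext j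
        change eval _ (X (s i, j)) = _
        rw [eval_X]
      rw [e5] at h5
      exact h5
    · rw [eval_map]
      exact hR0

end Pool.Agent.V8H90.AJ
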