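import Pool.Agent.V8H90.AJ.Fib
import Pool.Agent.V8H90.AJ.General
import Pool.Agent.V8H90.JT.Num
import Pool.Agent.V8H90.AJ.WeakMain

/-!
Quadratically many general hyperplanes.
-/

set_option autoImplicit false

open FF MvPolynomial Pool.Agent.W602.GT Pool.Agent.TH585.SV

namespace Pool.Agent.V8H90.AJ

/-- the numbers -/
theorem enough {v m q : ℕ} (hv : 1 ≤ v) (hm : 2 ≤ m)
    (h : 4 * m ^ 2 * v ^ 2 + 2 * v ≤ (m - 1) ^ 2 * (q - 3)) :
    ∃ d q0 M b0 : ℕ, m = M + 1 ∧ v + 1 ≤ d ∧ d < q0 ∧ 1 ≤ b0 ∧ b0 + d * (M + 1) = M * q0 ∧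
      q0 * (2 * v + d - 1).choose d < (2 * (v + 1) + d - 1).choose d ∧
      q0 + 2 * (v + 1) ≤ q := by
  obtain ⟨M, rfl⟩ : ∃ M, m = M + 1 := ⟨m - 1, by omega⟩
  have hM : 1 ≤ M := by omega
  rw [Nat.add_sub_cancel] at h
  have hq3 : 3 ≤ q := by
    by_contra hcon
    push Not at hcon
    rw [Nat.sub_eq_zero_of_le (by omega), mul_zero] at h
    have : 0 < 4 * (M + 1) ^ 2 * v ^ 2 := by positivity
    omega
  obtain ⟨Q, rfl⟩ : ∃ Q, q = Q + 3 := ⟨q - 3, by omega⟩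
  rw [Nat.add_sub_cancel] at h
  set A := (M + 1) * (4 * v ^ 2 + 2 * v) with hA
  set D := A / M with hD
  have hD1 : M * D ≤ A := Nat.mul_div_le A M
  have hD2 : A < M * (D + 1) := Nat.lt_mul_div_succ A (by omega)
  have hD3 : 4 * v ^ 2 + 2 * v ≤ D := by
    rw [hD, Nat.le_div_iff_mul_le (by omega)]
    rw [hA]
    nlinarith
  have hn2 : v ≤ v ^ 2 := by nlinarith
  obtain ⟨d, hd⟩ : ∃ d, D = d + 4 * v := ⟨D - 4 * v, by omega⟩
  have hdn : v + 1 ≤ d := by omega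
  set q0 := d * (M + 1) / M + 1 with hq0
  have h1 : d * (M + 1) < M * q0 := Nat.lt_mul_div_succ _ (by omega)
  have h2 : M * q0 ≤ d * (M + 1) + M := by
    rw [hq0, mul_add, mul_one]
    exact Nat.add_le_add_right (Nat.mul_div_le _ _) _
  obtain ⟨b0, hb0⟩ : ∃ b0, M * q0 = b0 + d * (M + 1) := ⟨M * q0 - d * (M + 1), by omega⟩
  have hdq : d < q0 := by
    by_contra hcon
    push Not at hcon
    have h3 : M * q0 ≤ M * d := Nat.mul_le_mul_left _ hcon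
    nlinarith
  refine ⟨d, q0, M, b0, rfl, hdn, hdq, by omega, hb0.symm, ?_, ?_⟩
  · apply Pool.Agent.V8H90.JT.count_one hv
    have h3 : M * (q0 * (2 * v * (2 * v + 1))) < M * ((2 * v + d) * (2 * v + d + 1)) := by
      calc M * (q0 * (2 * v * (2 * v + 1))) = (M * q0) * (4 * v ^ 2 + 2 * v) := by ring
        _ ≤ (d * (M + 1) + M) * (4 * v ^ 2 + 2 * v) := Nat.mul_le_mul_right _ h2
        _ = d * A + M * (4 * v ^ 2 + 2 * v) := by rw [hA]; ring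
        _ < d * (M * (D + 1)) + M * (4 * v ^ 2 + 2 * v) :=
          Nat.add_lt_add_right (Nat.mul_lt_mul_of_pos_left hD2 (by omega)) _
        _ = M * ((2 * v + d) * (2 * v + d + 1)) := by rw [hd]; ring
    exact Nat.lt_of_mul_lt_mul_left h3
  · have h3 : M ^ 2 * q0 + 4 * v * M * (M + 1) ≤ (M + 1) * A + M ^ 2 := by
      have h4 : M * (M * q0) ≤ M * (d * (M + 1) + M) := Nat.mul_le_mul_left _ h2
      have h5 : (M + 1) * (M * d + 4 * v * M) ≤ (M + 1) * A := by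
        apply Nat.mul_le_mul_left
        calc M * d + 4 * v * M = M * D := by rw [hd]; ring
          _ ≤ A := hD1
      nlinarith
    have h6 : M ^ 2 * (q0 + 2 * (v + 1)) ≤ M ^ 2 * (Q + 3) := by
      have h7 : (M + 1) * A = (M + 1) ^ 2 * (4 * v ^ 2 + 2 * v) := by rw [hA]; ring
      nlinarith
    have hM2 : 0 < M ^ 2 := by positivity
    have h8 := Nat.le_of_mul_le_mul_left h6 hM2
    simpa using h8

section

variable {v q q0 d M b0 : ℕ} {ℓ : Fin q → Fin (v + 1) → ℂ}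

/-- **Generically finite maps.** -/
theorem finite_case (hG : Good ℓ d q0)
    (hd : v + 1 ≤ d) (hdq : d < q0) (hb1 : 1 ≤ b0) (hb0 : b0 + d * (M + 1) = M * q0)
    {K : Type} [Field K] [Algebra ℂ K] {b : Fin (v + 1) → K}
    (hl : ∀ i, Pool.Agent.Y191.lf (ℓ i) b ≠ 0) (hb : ∃ j, b j ≠ 0)
    {n : ℕ} (hn : 1 ≤ n) (hK : Algebra.trdeg ℂ K = n)
    (halg : Algebra.IsAlgebraic (Pool.Agent.Y191.RF ℂ b) K)
    {X : Set (Place ℂ K)} {δ : Place ℂ K → ℝ} (hδ : ∀ P ∈ X, 0 ≤ δ P)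
    (hmult : ∀ P ∈ X, Divisorial n P → ∀ (c : ℤ) (e : Fin q → ℕ),
      Pool.Agent.Y191.OrdData P ℓ b c e → ∀ i, e i = 0 ∨ ((M : ℝ) + 1) * (1 - δ P) ≤ e i) :
    Pool.Agent.Y191.KodairaGe n X δ n := by
  classical
  have htr : Algebra.trdeg ℂ (Pool.Agent.Y191.RF ℂ b) = n := by
    have h1 := trdeg_add_eq ℂ (Pool.Agent.Y191.RF ℂ b) (A := K)
    rw [trdeg_eq_zero_iff.mpr halg, add_zero] at h1
    rw [h1, hK]
  obtain ⟨σ, hσ0, hind, -⟩ := Pool.Agent.Y191.exists_base hb htr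
  obtain ⟨N, hN, ω, h1, h2, -, D, h3, h4⟩ := main hG hd hdq hb1 hb0 hn
    (K := K) (u := b) (j1 := σ 0) hσ0 (J := fun j => σ j.succ) hind hl
  refine ⟨N, hN, ω, fun j => ⟨h1 j, fun P hPX hPd E hE => ?_⟩, D, h3, h4⟩
  obtain ⟨c, e, ho⟩ := Pool.Agent.Y191.exists_ordData P hσ0 hl
  obtain ⟨o1, ⟨j0, hj0, hj0c⟩, o3⟩ := id ho
  refine h2 P j0 hj0 (fun j => ?_) (δ P) (hδ P hPX) (fun i => ?_) j E hE
  · by_cases hj : b j = 0
    · exact Or.inl hj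
    · right
      rw [hj0c]
      exact o1 j hj
  · have h4 : P.ord (lf (ℓ i) b) = c + e i := o3 i
    rw [h4, hj0c]
    rcases hmult P hPX hPd c e ho i with h5 | h5
    · left
      rw [h5]
      simp
    · right
      push_cast
      rw [add_sub_cancel_left]
      exact h5

open Pool.Agent.Y172 in
/-- **Weak abundance** -/
theorem weak_case (hG : Good ℓ d q0)
    (hd : v + 1 ≤ d) (hdq : d < q0) (hb1 : 1 ≤ b0) (hb0 : b0 + d * (M + 1) = M * q0)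
    {K : Type} [Field K] [Algebra ℂ K] {N n p r : ℕ} {y : Fin (N + 1) → K}
    {Δ : Place ℂ K → ℚ} (hp : 1 ≤ p)
    (hy : NormalModel y) (hn : Algebra.trdeg ℂ K = n) (hΔ : Effective y Δ)
    (hLC : LogCanonical y n Δ) {b : Fin (v + 1) → K}
    (hl : ∀ i, Pool.Agent.Y191.lf (ℓ i) b ≠ 0) (hb : ∃ j, b j ≠ 0)
    (htr : Algebra.trdeg ℂ (Pool.Agent.Y191.RF ℂ b) = p)
    (hmult : ∀ P, IsPrimeDivisor y P → ∀ (c : ℤ) (e : Fin q → ℕ),
      Pool.Agent.Y191.OrdData P ℓ b c e → ∀ i, e i = 0 ∨ ((M : ℚ) + 1) * (1 - Δ P) ≤ e i)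
    {t : Fin r → K} (ht : ∀ j, t j ≠ 0)
    (hgen : IntermediateField.adjoin ℂ
      ({x : K | IsAlgebraic (Pool.Agent.Y191.RF ℂ b) x} ∪ Set.range t) = ⊤)
    (h2 : ∀ P, IsPrimeDivisor y P → (∀ f ∈ Pool.Agent.Y191.RF ℂ b, f ≠ 0 → P.ord f = 0) →
      (∃ j, P.ord (t j) ≠ 0) → 1 ≤ Δ P) :
    ∃ κ : ℕ, p ≤ κ ∧ kodairaDim y n Δ = (κ : WithBot ℕ) ∧
      ∀ A, Effective y A → Integral y A → numericalDim y n Δ A = (κ : EReal) := by
  classical
  refine weak_main' hy hn hΔ hLC htr ?_ ht hgen h2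
  rintro s rfl δ₁ δ₂ lam hδ hδ1 hδ0 m hm θ hθ hne
  refine fib hG hd hdq hb1 hb0 hl hb htr hp hn hδ0 hδ (fun P hP hPd c e ho i => ?_) hm hθ hne
  by_cases htriv : ∀ f ∈ Pool.Agent.Y191.RF ℂ b, f ≠ 0 → P.ord f = 0
  · exact Or.inl (Pool.Agent.Y191.triv_ord hl ho htriv i)
  · rw [hδ1 P hP htriv]
    rcases hmult P hP c e ho i with h3 | h3
    · exact Or.inl h3
    · right
      have h4 : ((((M : ℚ) + 1) * (1 - Δ P) : ℚ) : ℝ) ≤ ((e i : ℚ) : ℝ) := by exact_mod_cast h3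
      push_cast at h4
      exact h4

end

end Pool.Agent.V8H90.AJ
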