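import Pool.Agent.V8H90.AJ.Main
import Pool.Agent.Y191.SmallFib

/-!
Sections of `N (K_X + Δ)` for pairs with a map to projective space, many members of small
multiplicity, and pluricanonical forms along the fibres.
-/

set_option autoImplicit false

open FF MvPolynomial Pool.Agent.W602.GT Pool.Agent.TH585.SV

namespace Pool.Agent.V8H90.AJ

theorem GO.ceil {K : Type} [Field K] [Algebra ℂ K] {P : Place ℂ K} {r : ℝ} {f : K}
    (h : GO P r f) : Pool.Agent.W603.LV.Ge P ⌈r⌉ f := h.imp_right Int.ceil_le.mpr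

/-- **Small multiplicities and forms along the fibres.** -/
theorem fib {q q0 d M b0 v p s lam : ℕ} {ℓ : Fin q → Fin (v + 1) → ℂ} (hG : Good ℓ d q0)
    (hd : v + 1 ≤ d) (hdq : d < q0) (hb1 : 1 ≤ b0) (hb0 : b0 + d * (M + 1) = M * q0)
    {K : Type} [Field K] [Algebra ℂ K] {b : Fin (v + 1) → K}
    (hl : ∀ i, Pool.Agent.Y191.lf (ℓ i) b ≠ 0) (hb : ∃ j, b j ≠ 0)
    (htr : Algebra.trdeg ℂ (Pool.Agent.Y191.RF ℂ b) = p) (hp : 1 ≤ p)
    (hK : Algebra.trdeg ℂ K = (p + s : ℕ)) {X : Set (Place ℂ K)} {δ₁ δ₂ δ : Place ℂ K → ℝ}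
    (hδ1 : ∀ P ∈ X, 0 ≤ δ₁ P) (hδ : ∀ P ∈ X, δ₁ P + δ₂ P ≤ δ P)
    (hmult : ∀ P ∈ X, Divisorial (p + s) P → ∀ (c : ℤ) (e : Fin q → ℕ),
      Pool.Agent.Y191.OrdData P ℓ b c e → ∀ i, e i = 0 ∨ ((M : ℝ) + 1) * (1 - δ₁ P) ≤ e i)
    {m : ℕ} (hm : 0 < m)
    {θ : Fin (lam + 1) → (Fin s → Derivation (Pool.Agent.Y191.RF ℂ b) K K) → K}
    (hθ : ∀ j, FibSec (p + s) m X δ₂ (Pool.Agent.Y191.RF ℂ b) (θ j))
    (hne : ∃ G, θ 0 G ≠ 0 ∧
      AlgebraicIndependent (Pool.Agent.Y191.RF ℂ b) (fun i : Fin lam => θ i.succ G / θ 0 G)) :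
    Pool.Agent.Y191.KodairaGe (p + s) X δ (p + lam) := by
  classical
  obtain ⟨σ, hσ0, hind, halg⟩ := Pool.Agent.Y191.exists_base hb htr
  obtain ⟨N, e0, hN, he0, ω, h1, h2, h3, -, E, hE, hE0⟩ := base hG hd hdq hb1 hb0 hp
    (K := K) (u := b) (j1 := σ 0) hσ0 (J := fun j => σ j.succ) hind hl
  set x : Fin p → K := fun j => b (σ j.succ) / b (σ 0) with hx
  have hxL : ∀ j, x j ∈ Pool.Agent.Y191.RF ℂ b := fun j =>
    IntermediateField.subset_adjoin ℂ _ ⟨_, _, hσ0, rfl⟩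
  obtain ⟨u, Dt, Du, F, hHz⟩ := Pool.Agent.Y191.exists_frame_RF hK htr hind hxL halg
  have hyL : ∀ j, b j / b (σ 0) ∈ Pool.Agent.Y191.RF ℂ b := fun j =>
    IntermediateField.subset_adjoin ℂ _ ⟨_, _, hσ0, rfl⟩
  -- the values of the form
  have hω : ∀ E : Fin p → Derivation ℂ K K, ω E = (mtx x E).det ^ N * ω Dt := by
    intro E
    rw [← h1 (mtx x E) Dt]
    apply h2
    intro i j
    exact F.hz_eq E (hHz _ (hyL j)) i
  have hDt : ω Dt ≠ 0 := by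
    intro h0
    apply hE0
    rw [hω, h0, mul_zero]
  have hest : ∀ P ∈ X, Divisorial (p + s) P → ∀ E : Fin p → Derivation ℂ K K,
      (∀ i, DerReg P (E i)) → ∀ j, GO P (-(N * δ₁ P)) (b j ^ e0 * ω E) := by
    intro P hPX hPd E hE j
    obtain ⟨c, e, ho⟩ := Pool.Agent.Y191.exists_ordData P hσ0 hl
    obtain ⟨o1, ⟨j0, hj0, hj0c⟩, o3⟩ := id ho
    refine h3 P j0 hj0 (fun j => ?_) (δ₁ P) (hδ1 P hPX) (fun i => ?_) j E hE
    · by_cases hj : b j = 0
      · exact Or.inl hj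
      · right
        rw [hj0c]
        exact o1 j hj
    · have h4 : P.ord (lf (ℓ i) b) = c + e i := o3 i
      rw [h4, hj0c]
      rcases hmult P hPX hPd c e ho i with h5 | h5
      · left
        rw [h5]
        simp
      · right
        push_cast
        rw [add_sub_cancel_left]
        exact h5
  obtain ⟨w, hw⟩ : ∃ w : Fin (p + 1) → K, ∀ j, w j = (b (σ j) / b (σ 0)) ^ e0 :=
    ⟨_, fun _ => rfl⟩
  obtain ⟨ω', h4, D, h5, h6⟩ := F.pairs (κ := p) (w := w) hHz hxL hδ hm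
    (fun b => (hθ b).1) (fun P hPX hPd G hG b => (hθ b).2 P hPX hPd G hG) hne
    (M := N) hN (f := b (σ 0) ^ e0 * ω Dt) (mul_ne_zero (pow_ne_zero _ hσ0) hDt)
    (by rw [hw, div_self hσ0, one_pow])
    (by
      have h7 := ai_pow hind (N := e0) he0
      have h8 : (fun i : Fin p => w i.succ) = fun i => x i ^ e0 := funext fun i => hw _
      rw [h8]
      exact h7)
    (fun j => by
      rw [hw]
      exact pow_mem (hyL _) _)
    (fun P hPX hPd E hE j => by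
      have h7 := hest P hPX hPd E hE (σ j)
      refine ⟨_, ?_, Int.le_ceil _⟩
      have h8 : (mtx x E).det ^ N * (b (σ 0) ^ e0 * ω Dt * w j) = b (σ j) ^ e0 * ω E := by
        rw [hω E, hw, div_pow]
        have h9 : b (σ 0) ^ e0 ≠ 0 := pow_ne_zero _ hσ0
        field_simp
      rw [h8]
      exact h7.ceil)
  exact ⟨N * m, Nat.mul_pos hN hm, ω', h4, D, h5, h6⟩

end Pool.Agent.V8H90.AJ
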