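import Pool.Agent.V8H90.AJ.Good

/-!
Isobaric components, and points over larger fields.
-/

set_option autoImplicit false

namespace Pool.Agent.V8H90.AJ

open MvPolynomial Pool.Agent.V8H90.JT

variable {v : ℕ}

/-- forms which vanish on more hyperplanes than their degree -/
theorem form_zero {d q0 : ℕ} (hd : d < q0) {F : MvPolynomial (Fin (v + 1)) ℂ}
    (hF : F.totalDegree ≤ d) {ℓ : Fin q0 → Fin (v + 1) → ℂ}
    (hi : ∀ i j, i ≠ j → ∃ a b, ℓ i a * ℓ j b ≠ ℓ i b * ℓ j a)
    (h : ∀ i z, ∑ j, ℓ i j * z j = 0 → eval z F = 0) : F = 0 := by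
  classical
  apply MvPolynomial.funext
  intro a
  rw [map_zero]
  by_contra hne
  have ha : ∀ i, ∑ j, ℓ i j * a j ≠ 0 := fun i h0 => hne (h i a h0)
  set L : Fin q0 → MvPolynomial (Fin (v + 1)) ℂ := fun i => ∑ l, C (ℓ i l) * X l with hL
  set M : Fin q0 × Fin q0 → MvPolynomial (Fin (v + 1)) ℂ := fun x =>
    ∑ l, C ((∑ j, ℓ x.1 j * a j) * ℓ x.2 l - (∑ j, ℓ x.2 j * a j) * ℓ x.1 l) * X l with hM
  have hlin : ∀ c : Fin (v + 1) → ℂ, (∃ l, c l ≠ 0) →
      (∑ l, C (c l) * X l : MvPolynomial (Fin (v + 1)) ℂ) ≠ 0 := by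
    rintro c ⟨l, hl⟩ h0
    have h1 := congrArg (eval (Pi.single l (1 : ℂ))) h0
    simp only [map_sum, map_mul, eval_C, eval_X, Pi.single_apply, mul_ite, mul_one, mul_zero,
      Finset.sum_ite_eq', Finset.mem_univ, if_true, map_zero] at h1
    exact hl h1
  have hL0 : ∀ i, L i ≠ 0 := by
    intro i
    apply hlin
    by_contra hcon
    push Not at hcon
    exact ha i (Finset.sum_eq_zero fun j _ => by rw [hcon, zero_mul])
  have hM0 : ∀ x : Fin q0 × Fin q0, x.1 ≠ x.2 → M x ≠ 0 := by
    intro x hx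
    apply hlin
    by_contra hcon
    push Not at hcon
    obtain ⟨b, c, hbc⟩ := hi _ _ hx
    have h1 := hcon b
    have h2 := hcon c
    apply hbc
    have h3 : (∑ j, ℓ x.1 j * a j) * (ℓ x.1 b * ℓ x.2 c - ℓ x.1 c * ℓ x.2 b) = 0 := by
      linear_combination ℓ x.1 b * h2 - ℓ x.1 c * h1
    exact sub_eq_zero.mp ((mul_eq_zero.mp h3).resolve_left (ha x.1))
  have hG : (∏ i, L i) * ∏ x : Fin q0 × Fin q0 with x.1 ≠ x.2, M x ≠ 0 :=
    mul_ne_zero (Finset.prod_ne_zero_iff.mpr fun i _ => hL0 i)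
      (Finset.prod_ne_zero_iff.mpr fun x hx => hM0 x (Finset.mem_filter.mp hx).2)
  obtain ⟨b, hb⟩ : ∃ b, eval b ((∏ i, L i) * ∏ x : Fin q0 × Fin q0 with x.1 ≠ x.2, M x) ≠ 0 := by
    by_contra hcon
    push Not at hcon
    exact hG (MvPolynomial.funext fun x => by rw [hcon, map_zero])
  rw [map_mul] at hb
  have hb1 : ∀ i, ∑ l, ℓ i l * b l ≠ 0 := by
    intro i h0
    apply left_ne_zero_of_mul hb
    rw [map_prod]
    apply Finset.prod_eq_zero (Finset.mem_univ i)
    rw [hL]
    simpa using h0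
  have hb2 : ∀ i j, i ≠ j → (∑ l, ℓ i l * a l) * (∑ l, ℓ j l * b l) -
      (∑ l, ℓ j l * a l) * (∑ l, ℓ i l * b l) ≠ 0 := by
    intro i j hij h0
    apply right_ne_zero_of_mul hb
    rw [map_prod]
    apply Finset.prod_eq_zero (Finset.mem_filter.mpr ⟨Finset.mem_univ (i, j), hij⟩)
    rw [hM]
    simp only [map_sum, map_mul, eval_C, eval_X]
    rw [← h0, Finset.mul_sum, Finset.mul_sum, ← Finset.sum_sub_distrib]
    exact Finset.sum_congr rfl fun l _ => by ring
  set f : Polynomial ℂ := aeval (fun j => Polynomial.C (a j) + Polynomial.X * Polynomial.C (b j)) F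
    with hf
  have hfe : ∀ t, f.eval t = eval (fun j => a j + t * b j) F := by
    intro t
    rw [hf, aeval_def, ← Polynomial.coe_evalRingHom, hom_eval₂]
    have e1 : (Polynomial.evalRingHom t).comp (algebraMap ℂ (Polynomial ℂ)) = RingHom.id ℂ := by
      ext x <;> simp
    rw [e1, ← eval₂_id]
    congr 1
    funext j
    rw [Polynomial.coe_evalRingHom, Polynomial.eval_add, Polynomial.eval_mul, Polynomial.eval_C,
      Polynomial.eval_C, Polynomial.eval_X]
  have hfd : f.natDegree ≤ d * 1 := by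
    apply aeval_natDegree_le F hF
    intro i
    refine (Polynomial.natDegree_add_le _ _).trans ?_
    rw [Polynomial.natDegree_C]
    refine max_le (Nat.zero_le _) ?_
    refine Polynomial.natDegree_mul_le.trans ?_
    rw [Polynomial.natDegree_C, Polynomial.natDegree_X]
  have hf0 : f = 0 := by
    apply Polynomial.eq_zero_of_natDegree_lt_card_of_eval_eq_zero f
      (f := fun i : Fin q0 => -(∑ l, ℓ i l * a l) / (∑ l, ℓ i l * b l))
    · intro i j hij
      by_contra hne'
      apply hb2 i j hne'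
      have h1 := hb1 i
      have h2 := hb1 j
      simp only at hij
      rw [div_eq_div_iff h1 h2] at hij
      linear_combination -hij
    · intro i
      rw [hfe]
      apply h i
      have h1 := hb1 i
      simp only [mul_add, Finset.sum_add_distrib]
      have e : ∑ l, ℓ i l * (-(∑ l, ℓ i l * a l) / (∑ l, ℓ i l * b l) * b l) =
          -(∑ l, ℓ i l * a l) / (∑ l, ℓ i l * b l) * ∑ l, ℓ i l * b l := by
        rw [Finset.mul_sum]
        exact Finset.sum_congr rfl fun l _ => by ring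
      rw [e, div_mul_cancel₀ _ h1]
      ring
    · rw [Fintype.card_fin]
      omega
  apply hne
  have h1 := hfe 0
  rw [hf0, Polynomial.eval_zero] at h1
  rw [h1]
  congr 1
  congr 1
  funext j
  rw [zero_mul, add_zero]

section comp

variable {R : MvPolynomial (Fin 2 × Fin (v + 1)) ℂ} {d : ℕ}

theorem eval_sc (hR : R.IsHomogeneous d) (t : ℂ) (p : Fin 2 × Fin (v + 1) → ℂ) :
    eval (fun x => t ^ (x.1 : ℕ) * p x) R =
      ∑ w ∈ Finset.range (d + 1), t ^ w • eval p (cp w R) := by
  have h1 := congrArg (eval p) (sc_eq_sum t hR)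
  rw [map_sum] at h1
  simp only [smul_eval] at h1
  simp only [smul_eq_mul]
  rw [← h1]
  have h := aeval_bind₁ (R := ℂ) p (sc t) R
  rw [← coe_aeval_eq_eval, ← coe_aeval_eq_eval]
  change aeval _ R = aeval p (bind₁ (sc t) R)
  rw [h]
  congr 2
  funext x
  simp [sc]

theorem cp_zero (hR : R.IsHomogeneous d) {w : ℕ} (hw : d < w) : cp w R = 0 := by
  ext s
  rw [coeff_cp, coeff_zero]
  split_ifs with h
  · by_contra h0
    have := wt_le hR h0
    omega
  · rfl

theorem cp_van (hR : R.IsHomogeneous d) {a : Fin (v + 1) → ℂ} (ha : Van a R) (w : ℕ) :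
    Van a (cp w R) := by
  intro p hp
  rcases Nat.lt_or_ge d w with hw | hw
  · rw [cp_zero hR hw, map_zero]
  · refine vand (fun w => eval p (cp w R)) (d + 1) (fun t => ?_) w (by omega)
    rw [← eval_sc hR]
    apply ha
    intro m
    have e : ∑ j, a j * (t ^ (((m, j) : Fin 2 × Fin (v + 1)).1 : ℕ) * p (m, j)) =
        t ^ (m : ℕ) * ∑ j, a j * p (m, j) := by
      rw [Finset.mul_sum]
      exact Finset.sum_congr rfl fun j _ => by ring
    rw [e, hp, mul_zero]

theorem cp_inv (hR : R.IsHomogeneous d) (ha : Inv 1 R) (w : ℕ) : Inv 1 (cp w R) := by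
  intro g U hg
  rcases Nat.lt_or_ge d w with hw | hw
  · rw [cp_zero hR hw]
    unfold ev
    rw [map_zero, map_zero]
  · have key : ∀ (t : ℂ) (V : Fin (v + 1) → PowerSeries ℂ),
        ev (fun i => PowerSeries.rescale t (V i)) R =
          ∑ w ∈ Finset.range (d + 1), t ^ w • ev V (cp w R) := by
      intro t V
      unfold ev
      rw [← eval_sc hR]
      congr 2
      funext x
      rw [PowerSeries.coeff_rescale]
    have h1 := vand (fun w => ev (fun i => g * U i) (cp w R) - ev U (cp w R)) (d + 1)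
      (fun t => ?_) w (by omega)
    · exact sub_eq_zero.mp h1
    · simp only [smul_sub, Finset.sum_sub_distrib]
      rw [← key, ← key]
      have h2 := ha (PowerSeries.rescale t g) (fun i => PowerSeries.rescale t (U i)) (by
        rw [pow_one] at hg ⊢
        rw [PowerSeries.X_dvd_iff] at hg ⊢
        rw [map_sub, map_one] at hg ⊢
        rw [← PowerSeries.coeff_zero_eq_constantCoeff_apply] at hg ⊢
        rw [PowerSeries.coeff_rescale, pow_zero, one_mul]
        exact hg)
      simp only [map_mul]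
      rw [h2, sub_self]

end comp

/-- an isobaric invariant polynomial for a pair of vectors -/
theorem exists_cp {q d q0 : ℕ} {ℓ : Fin q → Fin (v + 1) → ℂ} (hG : Good ℓ d q0) (hd : d < q0)
    {p : Fin 2 → Fin (v + 1) → ℂ} (hp : Mi p) :
    ∃ (s : Fin q0 → Fin q) (w : ℕ) (R : MvPolynomial (Fin 2 × Fin (v + 1)) ℂ),
      Function.Injective s ∧ 1 ≤ w ∧ w ≤ d ∧ Adm ℓ s d w R ∧ eval (fun y => p y.1 y.2) R ≠ 0 := by
  classical
  obtain ⟨-, hpw, hG⟩ := hG
  obtain ⟨s, R, hs, h1, h2, h3, h4⟩ := hG p hp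
  -- the component of weight zero
  have hz : ∀ z : Fin (v + 1) → ℂ, eval (fun x : Fin 2 × Fin (v + 1) =>
      if x.1 = 0 then z x.2 else 0) R = 0 := by
    set F : MvPolynomial (Fin (v + 1)) ℂ := aeval (fun x : Fin 2 × Fin (v + 1) =>
      if x.1 = 0 then (X x.2 : MvPolynomial (Fin (v + 1)) ℂ) else 0) R with hF
    have hFe : ∀ z, eval z F = eval (fun x : Fin 2 × Fin (v + 1) =>
        if x.1 = 0 then z x.2 else 0) R := by
      intro z
      rw [hF, aeval_def, hom_eval₂]
      have e1 : (eval z).comp (algebraMap ℂ (MvPolynomial (Fin (v + 1)) ℂ)) = RingHom.id ℂ := by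
        ext x
        simp
      rw [e1, ← eval₂_id]
      congr 1
      funext x
      split_ifs <;> simp
    have hFd : F.totalDegree ≤ d := by
      have h5 : F.IsHomogeneous (1 * d) := h1.aeval _ fun x => by
        split_ifs
        · exact isHomogeneous_X _ _
        · exact isHomogeneous_zero _ _ _
      rw [one_mul] at h5
      by_cases h0 : F = 0
      · rw [h0, totalDegree_zero]
        exact Nat.zero_le _
      · exact h5.totalDegree_le
    have hF0 : F = 0 := by
      refine form_zero hd hFd (ℓ := fun i => ℓ (s i)) (fun i j hij => hpw _ _ fun h => hij (hs h))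
        fun i z hz => ?_
      rw [hFe]
      apply h3 i
      intro m
      by_cases hm : m = 0
      · simp only [hm, if_true]
        exact hz
      · simp only [hm, if_false, mul_zero, Finset.sum_const_zero]
    intro z
    rw [← hFe, hF0, map_zero]
  have h0 : ∀ p', eval p' (cp 0 R) = 0 := by
    intro p'
    have h5 := eval_sc h1 0 p'
    rw [Finset.sum_eq_single 0] at h5
    · rw [pow_zero, one_smul] at h5
      rw [← h5]
      refine Eq.trans ?_ (hz fun j => p' (0, j))
      congr 2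
      funext x
      obtain ⟨m, j⟩ := x
      fin_cases m
      · simp
      · simp
    · intro w _ hw
      rw [zero_pow hw, zero_smul]
    · intro h
      exact absurd (Finset.mem_range.mpr (Nat.succ_pos d)) h
  have h5 : ∃ w ∈ Finset.range (d + 1), eval (fun y => p y.1 y.2) (cp w R) ≠ 0 := by
    by_contra hcon
    push Not at hcon
    apply h4
    rw [← sum_cp h1, map_sum]
    exact Finset.sum_eq_zero hcon
  obtain ⟨w, hw, hw2⟩ := h5
  refine ⟨s, w, cp w R, hs, ?_, by have := Finset.mem_range.mp hw; omega,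
    ⟨cp_hom h1 w, cp_inv h1 h2 w, fun i => cp_van h1 (h3 i) w, fun t ht => cp_wt ht⟩, hw2⟩
  rcases Nat.eq_zero_or_pos w with hw0 | hw0
  · exfalso
    rw [hw0] at hw2
    exact hw2 (h0 _)
  · exact hw0

/-- an isobaric invariant polynomial for a pair of vectors over a larger field -/
theorem exists_adm {q d q0 : ℕ} {ℓ : Fin q → Fin (v + 1) → ℂ} (hG : Good ℓ d q0) (hd : d < q0)
    {Λ : Type} [Field Λ] [Algebra ℂ Λ] {p : Fin 2 → Fin (v + 1) → Λ} (hp : Mi p) :
    ∃ (s : Fin q0 → Fin q) (w : ℕ) (R : MvPolynomial (Fin 2 × Fin (v + 1)) ℂ),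
      Function.Injective s ∧ 1 ≤ w ∧ w ≤ d ∧ Adm ℓ s d w R ∧
        aeval (fun y : Fin 2 × Fin (v + 1) => p y.1 y.2) R ≠ 0 := by
  classical
  by_contra hcon
  push Not at hcon
  obtain ⟨i, j, hij⟩ := hp
  set I : Ideal (MvPolynomial (Fin 2 × Fin (v + 1)) ℂ) :=
    RingHom.ker (aeval (fun y : Fin 2 × Fin (v + 1) => p y.1 y.2) :
      MvPolynomial (Fin 2 × Fin (v + 1)) ℂ →ₐ[ℂ] Λ) with hI
  set μ : MvPolynomial (Fin 2 × Fin (v + 1)) ℂ := X (0, i) * X (1, j) - X (0, j) * X (1, i) with hμ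
  have hprime : I.IsPrime := RingHom.ker_isPrime _
  have hμI : μ ∉ I := by
    rw [hI, RingHom.mem_ker, hμ]
    simpa using hij
  have h1 : μ ∉ vanishingIdeal ℂ (zeroLocus ℂ I) := by
    rw [vanishingIdeal_zeroLocus_eq_radical, hprime.radical]
    exact hμI
  rw [mem_vanishingIdeal_iff] at h1
  push Not at h1
  obtain ⟨x, hx, hxμ⟩ := h1
  rw [mem_zeroLocus_iff] at hx
  obtain ⟨s, w, R, h2, h3, h4, h5, h6⟩ := exists_cp hG hd (p := fun a b => x (a, b)) ⟨i, j, by
    simpa [hμ] using hxμ⟩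
  apply h6
  have h7 := hx R (by
    rw [hI, RingHom.mem_ker]
    exact hcon s w R h2 h3 h4 h5)
  exact h7

end Pool.Agent.V8H90.AJ
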