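import Pool.Agent.V8H90.JT.Gen

/-!
Descent of the auxiliary polynomials to the complex numbers, and their weighted homogeneous
components.
-/

set_option autoImplicit false

namespace Pool.Agent.V8H90.AJ

open MvPolynomial Pool.Agent.V8H90.JT

section red

variable {k : Type} [Field k] {σ : Type} {Λ : Type} [Field Λ] [Algebra k Λ]

/-- a linear function applied to the coefficients -/
noncomputable def red (f : Λ →ₗ[k] k) (R : MvPolynomial σ Λ) : MvPolynomial σ k :=
  ∑ s ∈ R.support, monomial s (f (coeff s R))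

theorem coeff_red (f : Λ →ₗ[k] k) (R : MvPolynomial σ Λ) (s : σ →₀ ℕ) :
    coeff s (red f R) = f (coeff s R) := by
  classical
  unfold red
  rw [coeff_sum]
  simp only [coeff_monomial]
  rw [Finset.sum_ite_eq']
  split_ifs with h
  · rfl
  · rw [notMem_support_iff.1 h, map_zero]

theorem red_add (f : Λ →ₗ[k] k) (R S : MvPolynomial σ Λ) :
    red f (R + S) = red f R + red f S := by
  ext s
  rw [coeff_add, coeff_red, coeff_red, coeff_red, coeff_add, map_add]

theorem red_zero (f : Λ →ₗ[k] k) : red f (0 : MvPolynomial σ Λ) = 0 := by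
  ext s
  rw [coeff_red, coeff_zero, coeff_zero, map_zero]

theorem red_C_mul (f : Λ →ₗ[k] k) (a : Λ) (G : MvPolynomial σ k) :
    red f (C a * map (algebraMap k Λ) G) = C (f a) * G := by
  ext s
  rw [coeff_red, coeff_C_mul, coeff_map, coeff_C_mul, mul_comm, ← Algebra.smul_def, map_smul,
    smul_eq_mul, mul_comm]

theorem red_bind {τ : Type} (f : Λ →ₗ[k] k) (g : σ → MvPolynomial τ k) (R : MvPolynomial σ Λ) :
    red f (bind₁ (fun x => map (algebraMap k Λ) (g x)) R) = bind₁ g (red f R) := by
  classical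
  induction R using MvPolynomial.induction_on' with
  | monomial s a =>
    have h1 : red f (monomial s a) = monomial s (f a) := by
      ext t
      rw [coeff_red, coeff_monomial, coeff_monomial]
      split_ifs with h
      · rfl
      · rw [map_zero]
    rw [h1, bind₁_monomial, bind₁_monomial, ← red_C_mul]
    congr 2
    rw [map_prod]
    exact Finset.prod_congr rfl fun i _ => (map_pow _ _ _).symm
  | add p q hp hq => rw [map_add, red_add, red_add, hp, hq, map_add]

theorem eval_red (f : Λ →ₗ[k] k) (R : MvPolynomial σ Λ) (w : σ → k) :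
    eval w (red f R) = f (eval (fun x => algebraMap k Λ (w x)) R) := by
  unfold red
  rw [map_sum, eval_eq, map_sum]
  refine Finset.sum_congr rfl fun s _ => ?_
  rw [eval_monomial]
  have e : ∏ i ∈ s.support, (algebraMap k Λ (w i)) ^ s i =
      algebraMap k Λ (s.prod fun i e => w i ^ e) := by
    rw [Finsupp.prod, map_prod]
    exact Finset.prod_congr rfl fun i _ => (map_pow _ _ _).symm
  rw [e, mul_comm (coeff s R), ← Algebra.smul_def, map_smul, smul_eq_mul, mul_comm]

theorem red_hom {f : Λ →ₗ[k] k} {R : MvPolynomial σ Λ} {d : ℕ} (hR : R.IsHomogeneous d) :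
    (red f R).IsHomogeneous d := by
  intro s hs
  apply hR
  rw [coeff_red] at hs
  intro h0
  exact hs (by rw [h0, map_zero])

theorem exists_red {p : σ → Λ} {R : MvPolynomial σ Λ} (h : eval p R ≠ 0) :
    ∃ f : Λ →ₗ[k] k, aeval p (red f R) ≠ 0 := by
  classical
  by_contra hcon
  push Not at hcon
  apply h
  set B := Module.Basis.ofVectorSpace k Λ with hB
  set T := R.support.biUnion fun s => (B.repr (coeff s R)).support with hT
  have h1 : ∀ s ∈ R.support, coeff s R = ∑ b ∈ T, B.repr (coeff s R) b • B b := by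
    intro s hs
    conv_lhs => rw [← B.linearCombination_repr (coeff s R)]
    rw [Finsupp.linearCombination_apply, Finsupp.sum]
    apply Finset.sum_subset
    · intro b hb
      exact Finset.mem_biUnion.mpr ⟨s, hs, hb⟩
    · intro b _ hb
      rw [Finsupp.notMem_support_iff.mp hb, zero_smul]
  have h2 : ∀ b, aeval p (red (B.coord b) R) =
      ∑ s ∈ R.support, algebraMap k Λ (B.repr (coeff s R) b) * ∏ x ∈ s.support, p x ^ s x := by
    intro b
    unfold red
    rw [map_sum]
    refine Finset.sum_congr rfl fun s _ => ?_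
    rw [aeval_monomial]
    rfl
  rw [eval_eq]
  calc ∑ s ∈ R.support, coeff s R * ∏ x ∈ s.support, p x ^ s x
      = ∑ s ∈ R.support, (∑ b ∈ T, B.repr (coeff s R) b • B b) * ∏ x ∈ s.support, p x ^ s x :=
        Finset.sum_congr rfl fun s hs => by rw [← h1 s hs]
    _ = ∑ b ∈ T, B b * aeval p (red (B.coord b) R) := by
        simp only [h2, Finset.sum_mul, Finset.mul_sum]
        rw [Finset.sum_comm]
        refine Finset.sum_congr rfl fun b _ => Finset.sum_congr rfl fun s _ => ?_
        rw [Algebra.smul_def]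
        ring
    _ = 0 := Finset.sum_eq_zero fun b _ => by rw [hcon, mul_zero]

end red

section comp

variable {n : ℕ}

/-- the shift of the derivatives -/
noncomputable def sh {A : Type*} [CommRing A] (c : A) (x : Fin 2 × Fin (n + 1)) :
    MvPolynomial (Fin 2 × Fin (n + 1)) A :=
  if x.1 = 1 then X x + C c * X (0, x.2) else X x

/-- the scaling of the derivatives -/
noncomputable def sc {ι : Type} {A : Type*} [CommRing A] (t : A) (x : Fin 2 × ι) :
    MvPolynomial (Fin 2 × ι) A := C (t ^ (x.1 : ℕ)) * X x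

/-- the weight of an exponent -/
def wt {ι : Type} (s : Fin 2 × ι →₀ ℕ) : ℕ := s.sum fun x e => (x.1 : ℕ) * e

/-- the component of a given weight -/
noncomputable def cp {ι : Type} {A : Type*} [CommRing A] (w : ℕ)
    (R : MvPolynomial (Fin 2 × ι) A) : MvPolynomial (Fin 2 × ι) A :=
  ∑ s ∈ R.support with wt s = w, monomial s (coeff s R)

variable {ι : Type} {A : Type*} [CommRing A]

theorem coeff_cp (w : ℕ) (R : MvPolynomial (Fin 2 × ι) A) (s : Fin 2 × ι →₀ ℕ) :
    coeff s (cp w R) = if wt s = w then coeff s R else 0 := by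
  classical
  unfold cp
  rw [coeff_sum]
  simp only [coeff_monomial]
  rw [Finset.sum_ite_eq']
  by_cases hw : wt s = w
  · rw [if_pos hw]
    split_ifs with h
    · rfl
    · by_contra h0
      exact h (Finset.mem_filter.mpr ⟨mem_support_iff.mpr (Ne.symm h0), hw⟩)
  · rw [if_neg hw]
    split_ifs with h
    · exact absurd (Finset.mem_filter.mp h).2 hw
    · rfl

theorem coeff_sc (t : A) (R : MvPolynomial (Fin 2 × ι) A) (s : Fin 2 × ι →₀ ℕ) :
    coeff s (bind₁ (sc t) R) = t ^ wt s * coeff s R := by
  classical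
  induction R using MvPolynomial.induction_on' with
  | monomial u a =>
    rw [bind₁_monomial]
    have h1 : ∏ i ∈ u.support, (sc t i : MvPolynomial (Fin 2 × ι) A) ^ u i =
        C (t ^ wt u) * ∏ i ∈ u.support, (X i : MvPolynomial (Fin 2 × ι) A) ^ u i := by
      simp only [sc, mul_pow, Finset.prod_mul_distrib]
      congr 1
      simp only [← map_pow, ← pow_mul]
      rw [← map_prod, Finset.prod_pow_eq_pow_sum]
      rfl
    have h2 : C a * (C (t ^ wt u) * ∏ i ∈ u.support, (X i : MvPolynomial (Fin 2 × ι) A) ^ u i) =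
        C (t ^ wt u) * monomial u a := by
      rw [monomial_eq]
      unfold Finsupp.prod
      ring
    rw [h1, h2, coeff_C_mul, coeff_monomial]
    split_ifs with h
    · rw [h]
    · rw [mul_zero, mul_zero]
  | add p q hp hq => rw [map_add, coeff_add, hp, hq, coeff_add, mul_add]

theorem wt_le {R : MvPolynomial (Fin 2 × ι) A} {d : ℕ} (hR : R.IsHomogeneous d)
    {s : Fin 2 × ι →₀ ℕ} (hs : coeff s R ≠ 0) : wt s ≤ d := by
  have h1 : s.degree = d := by
    rw [Finsupp.degree_eq_weight_one]
    exact hR hs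
  rw [← h1, Finsupp.degree, wt, Finsupp.sum]
  refine Finset.sum_le_sum fun x _ => ?_
  have hx : (x.1 : ℕ) ≤ 1 := by
    have := x.1.2
    omega
  calc (x.1 : ℕ) * s x ≤ 1 * s x := Nat.mul_le_mul_right _ hx
    _ = s x := one_mul _

theorem sc_eq_sum (t : A) {R : MvPolynomial (Fin 2 × ι) A} {d : ℕ} (hR : R.IsHomogeneous d) :
    bind₁ (sc t) R = ∑ w ∈ Finset.range (d + 1), t ^ w • cp w R := by
  ext s
  rw [coeff_sc, coeff_sum]
  simp only [coeff_smul, coeff_cp, smul_eq_mul]
  by_cases h0 : coeff s R = 0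
  · rw [h0, mul_zero]
    symm
    apply Finset.sum_eq_zero
    intro w _
    simp
  · rw [Finset.sum_eq_single (wt s)]
    · rw [if_pos rfl]
    · intro w _ hw
      rw [if_neg (Ne.symm hw), mul_zero]
    · intro h
      exact absurd (Finset.mem_range.mpr (Nat.lt_succ_of_le (wt_le hR h0))) h

theorem sum_cp {R : MvPolynomial (Fin 2 × ι) A} {d : ℕ} (hR : R.IsHomogeneous d) :
    ∑ w ∈ Finset.range (d + 1), cp w R = R := by
  ext s
  rw [coeff_sum]
  simp only [coeff_cp]
  by_cases h0 : coeff s R = 0
  · rw [h0]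
    apply Finset.sum_eq_zero
    intro w _
    simp
  · rw [Finset.sum_eq_single (wt s)]
    · rw [if_pos rfl]
    · intro w _ hw
      rw [if_neg (Ne.symm hw)]
    · intro h
      exact absurd (Finset.mem_range.mpr (Nat.lt_succ_of_le (wt_le hR h0))) h

theorem cp_hom {R : MvPolynomial (Fin 2 × ι) A} {d : ℕ} (hR : R.IsHomogeneous d) (w : ℕ) :
    (cp w R).IsHomogeneous d := by
  intro s hs
  rw [coeff_cp] at hs
  apply hR
  intro h0
  rw [h0] at hs
  simp at hs

theorem cp_wt {R : MvPolynomial (Fin 2 × ι) A} {w : ℕ} {s : Fin 2 × ι →₀ ℕ}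
    (hs : coeff s (cp w R) ≠ 0) : wt s = w := by
  rw [coeff_cp] at hs
  by_contra h
  rw [if_neg h] at hs
  exact hs rfl

/-- a polynomial with coefficients in a vector space -/
theorem vand {M : Type} [AddCommGroup M] [Module ℂ M] (x : ℕ → M) (N : ℕ)
    (h : ∀ t : ℂ, ∑ w ∈ Finset.range N, t ^ w • x w = 0) : ∀ w < N, x w = 0 := by
  intro w hw
  rw [← Module.forall_dual_apply_eq_zero_iff ℂ]
  intro φ
  set P : Polynomial ℂ := ∑ w ∈ Finset.range N, Polynomial.monomial w (φ (x w)) with hP
  have h1 : P = 0 := by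
    apply Polynomial.funext
    intro t
    rw [hP, Polynomial.eval_finsetSum, Polynomial.eval_zero]
    have h2 := congrArg φ (h t)
    rw [map_sum, map_zero] at h2
    rw [← h2]
    refine Finset.sum_congr rfl fun w _ => ?_
    rw [Polynomial.eval_monomial, map_smul, smul_eq_mul, mul_comm]
  have h2 := congrArg (fun P => Polynomial.coeff P w) h1
  simp only [hP, Polynomial.finsetSum_coeff, Polynomial.coeff_monomial, Polynomial.coeff_zero]
    at h2
  rw [Finset.sum_ite_eq', if_pos (Finset.mem_range.mpr hw)] at h2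
  exact h2

end comp

end Pool.Agent.V8H90.AJ
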