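import Pool.Agent.V8H90.AJ.Ge

/-!
Frames adapted to a place.
-/

set_option autoImplicit false

open FF MvPolynomial Pool.Agent.W602.GT

namespace Pool.Agent.V8H90.AJ

variable {k K : Type} [Field k] [Field K] [Algebra k K] {P : Place k K}

theorem derReg_add {D E : Derivation k K K} (hD : DerReg P D) (hE : DerReg P E) :
    DerReg P (D + E) := fun f hf => by
  rw [Derivation.add_apply]
  exact P.reg_add (hD f hf) (hE f hf)

theorem derReg_smul {D : Derivation k K K} (hD : DerReg P D) {c : K} (hc : P.Reg c) :
    DerReg P (c • D) := fun f hf => by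
  rw [Derivation.smul_apply, smul_eq_mul]
  exact P.reg_mul hc (hD f hf)

/-- A family of regular vector fields can be transformed, by a matrix with determinant one, into a
family of regular vector fields all but one of which are tangent to the divisor. -/
theorem exists_frame (P : Place k K) {n : ℕ} (hn : 1 ≤ n) (D : Fin n → Derivation k K K)
    (hD : ∀ i, DerReg P (D i)) :
    ∃ (i1 : Fin n) (A : Matrix (Fin n) (Fin n) K), A.det = 1 ∧
      (∀ i, DerReg P (∑ j, A i j • D j)) ∧ ∀ i, i ≠ i1 → Tan P (∑ j, A i j • D j) := by
  classical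
  obtain ⟨t, ht0, ht⟩ := P.surj
  by_cases h : ∃ i1, D i1 t ≠ 0 ∧ P.ord (D i1 t) = 0
  · obtain ⟨i1, h0, h1⟩ := h
    set c : Fin n → K := fun i => if i = i1 then 0 else -(D i t / D i1 t) with hc
    have hcr : ∀ i, P.Reg (c i) := by
      intro i
      rw [hc]
      simp only
      split_ifs with hi
      · exact P.reg_zero
      · apply P.reg_neg
        rw [div_eq_mul_inv]
        refine P.reg_mul (hD i t (Or.inr (by rw [ht]; norm_num))) (Or.inr ?_)
        rw [P.ord_inv, h1, neg_zero]
    refine ⟨i1, Matrix.of fun i j => (1 : Matrix (Fin n) (Fin n) K) i j +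
      c i * (1 : Matrix (Fin n) (Fin n) K) i1 j, ?_, ?_, ?_⟩
    · have h2 := Matrix.det_eq_of_forall_row_eq_smul_add_const
        (A := Matrix.of fun i j => (1 : Matrix (Fin n) (Fin n) K) i j +
          c i * (1 : Matrix (Fin n) (Fin n) K) i1 j) (B := 1) c i1 (by rw [hc]; simp)
        fun i j => rfl
      exact h2.trans Matrix.det_one
    · intro i
      have e : ∑ j, (Matrix.of fun i j => (1 : Matrix (Fin n) (Fin n) K) i j +
          c i * (1 : Matrix (Fin n) (Fin n) K) i1 j) i j • D j = D i + c i • D i1 := by
        simp only [Matrix.of_apply, add_smul, Finset.sum_add_distrib, mul_smul,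
          ← Finset.smul_sum, Matrix.one_apply, ite_smul, one_smul, zero_smul, Finset.sum_ite_eq,
          Finset.mem_univ, if_true]
      rw [e]
      exact derReg_add (hD i) (derReg_smul (hD i1) (hcr i))
    · intro i hi
      have e : ∑ j, (Matrix.of fun i j => (1 : Matrix (Fin n) (Fin n) K) i j +
          c i * (1 : Matrix (Fin n) (Fin n) K) i1 j) i j • D j = D i + c i • D i1 := by
        simp only [Matrix.of_apply, add_smul, Finset.sum_add_distrib, mul_smul,
          ← Finset.smul_sum, Matrix.one_apply, ite_smul, one_smul, zero_smul, Finset.sum_ite_eq,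
          Finset.mem_univ, if_true]
      rw [e]
      refine tan_of (derReg_add (hD i) (derReg_smul (hD i1) (hcr i))) ht0 ht ?_
      rw [Derivation.add_apply, Derivation.smul_apply, hc]
      simp only
      rw [if_neg hi, smul_eq_mul, neg_mul, div_mul_cancel₀ _ h0, add_neg_cancel]
      exact GO.zero _
  · push Not at h
    refine ⟨⟨0, hn⟩, 1, Matrix.det_one, ?_, ?_⟩
    · intro i
      have e : ∑ j, (1 : Matrix (Fin n) (Fin n) K) i j • D j = D i := by
        simp only [Matrix.one_apply, ite_smul, one_smul, zero_smul, Finset.sum_ite_eq,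
          Finset.mem_univ, if_true]
      rw [e]
      exact hD i
    · intro i _
      have e : ∑ j, (1 : Matrix (Fin n) (Fin n) K) i j • D j = D i := by
        simp only [Matrix.one_apply, ite_smul, one_smul, zero_smul, Finset.sum_ite_eq,
          Finset.mem_univ, if_true]
      rw [e]
      refine tan_of (hD i) ht0 ht ?_
      by_cases h0 : D i t = 0
      · rw [h0]
        exact GO.zero _
      · right
        have h1 := (hD i t (Or.inr (by rw [ht]; norm_num))).resolve_left h0
        have h2 := h i h0
        have h3 : (1 : ℤ) ≤ P.ord (D i t) := by omega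
        exact_mod_cast h3

end Pool.Agent.V8H90.AJ
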