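import Pool.Agent.W602.GT.Defs

/-!
Lower bounds for orders, and polynomials whose coefficients satisfy such bounds.
-/

set_option autoImplicit false

open FF MvPolynomial Pool.Agent.W602.GT

namespace Pool.Agent.V8H90.AJ

section ge

variable {k K : Type} [Field k] [Field K] [Algebra k K] (P : Place k K)

/-- the order of `f` is at least `c` -/
def GO (c : ℝ) (f : K) : Prop := f = 0 ∨ c ≤ P.ord f

variable {P}

theorem GO.zero (c : ℝ) : GO P c 0 := Or.inl rfl

theorem GO.mono {c c' : ℝ} {f : K} (h : GO P c f) (hc : c' ≤ c) : GO P c' f :=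
  h.imp_right fun h => hc.trans h

theorem GO.mul {c c' : ℝ} {f g : K} (hf : GO P c f) (hg : GO P c' g) : GO P (c + c') (f * g) := by
  by_cases h1 : f = 0
  · left; rw [h1, zero_mul]
  by_cases h2 : g = 0
  · left; rw [h2, mul_zero]
  right
  rw [P.ord_mul h1 h2]
  push_cast
  exact add_le_add (hf.resolve_left h1) (hg.resolve_left h2)

theorem GO.add {c : ℝ} {f g : K} (hf : GO P c f) (hg : GO P c g) : GO P c (f + g) := by
  by_cases h1 : f = 0
  · rwa [h1, zero_add]
  by_cases h2 : g = 0
  · rwa [h2, add_zero]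
  by_cases h3 : f + g = 0
  · exact Or.inl h3
  right
  have h4 := P.ord_add h1 h2 h3
  have h5 : ((min (P.ord f) (P.ord g) : ℤ) : ℝ) ≤ P.ord (f + g) := by exact_mod_cast h4
  refine le_trans ?_ h5
  push_cast
  exact le_min (hf.resolve_left h1) (hg.resolve_left h2)

theorem GO.sum {ι : Type*} (s : Finset ι) {c : ℝ} {f : ι → K} (h : ∀ i ∈ s, GO P c (f i)) :
    GO P c (∑ i ∈ s, f i) := by
  classical
  induction s using Finset.induction_on with
  | empty => rw [Finset.sum_empty]; exact GO.zero c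
  | insert a s ha ih =>
    rw [Finset.sum_insert ha]
    exact (h a (Finset.mem_insert_self _ _)).add
      (ih fun i hi => h i (Finset.mem_insert_of_mem hi))

theorem GO.const (c : k) : GO P 0 (algebraMap k K c) := by
  by_cases h : c = 0
  · left; rw [h, map_zero]
  · right; rw [P.ord_const h]; simp

theorem GO.one : GO P 0 (1 : K) := Or.inr (by rw [P.ord_one]; simp)

theorem GO.pow {c : ℝ} {f : K} (h : GO P c f) (n : ℕ) : GO P (n * c) (f ^ n) := by
  induction n with
  | zero =>
    rw [pow_zero]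
    exact GO.one.mono (by simp)
  | succ n ih =>
    rw [pow_succ]
    exact (ih.mul h).mono (by push_cast; linarith)

theorem GO.prod {ι : Type*} (s : Finset ι) {c : ι → ℝ} {f : ι → K} (h : ∀ i ∈ s, GO P (c i) (f i)) :
    GO P (∑ i ∈ s, c i) (∏ i ∈ s, f i) := by
  classical
  induction s using Finset.induction_on with
  | empty => rw [Finset.sum_empty, Finset.prod_empty]; exact GO.one
  | insert a s ha ih =>
    rw [Finset.sum_insert ha, Finset.prod_insert ha]
    exact (h a (Finset.mem_insert_self _ _)).mul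
      (ih fun i hi => h i (Finset.mem_insert_of_mem hi))

theorem GO.of_ord {f : K} {c : ℝ} (h : c ≤ P.ord f) : GO P c f := Or.inr h

theorem GO.reg {f : K} (h : P.Reg f) : GO P 0 f := h.imp_right fun h => by exact_mod_cast h

theorem GO.toReg {f : K} (h : GO P 0 f) : P.Reg f := h.imp_right fun h => by exact_mod_cast h

theorem GO.neg {c : ℝ} {f : K} (h : GO P c f) : GO P c (-f) := by
  rcases h with h | h
  · left; rw [h, neg_zero]
  · right; rwa [P.ord_neg]

end ge

section mg

variable {k K : Type} [Field k] [Field K] [Algebra k K] {n : ℕ} (P : Place k K) (δ : ℝ)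
  (i1 : Fin n)

/-- the coefficient of a monomial which contains the `e`-th power of the variable `i1` has order at
least `c - e δ` -/
def MG (c : ℝ) (p : MvPolynomial (Fin n) K) : Prop := ∀ α, GO P (c - α i1 * δ) (coeff α p)

variable {P δ i1}

theorem MG.zero (c : ℝ) : MG P δ i1 c (0 : MvPolynomial (Fin n) K) := fun α => by
  rw [coeff_zero]; exact GO.zero _

theorem MG.mono {c c' : ℝ} {p : MvPolynomial (Fin n) K} (h : MG P δ i1 c p) (hc : c' ≤ c) :
    MG P δ i1 c' p := fun α => (h α).mono (by linarith)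

theorem MG.add {c : ℝ} {p q : MvPolynomial (Fin n) K} (hp : MG P δ i1 c p) (hq : MG P δ i1 c q) :
    MG P δ i1 c (p + q) := fun α => by
  rw [coeff_add]; exact (hp α).add (hq α)

theorem MG.mul {c c' : ℝ} {p q : MvPolynomial (Fin n) K} (hp : MG P δ i1 c p)
    (hq : MG P δ i1 c' q) : MG P δ i1 (c + c') (p * q) := fun α => by
  classical
  rw [coeff_mul]
  refine GO.sum _ fun x hx => ?_
  have h1 := (hp x.1).mul (hq x.2)
  refine h1.mono (le_of_eq ?_)
  have h2 := Finset.HasAntidiagonal.mem_antidiagonal.mp hx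
  rw [← h2, Finsupp.add_apply]
  push_cast
  ring

theorem MG.sum {ι : Type*} (s : Finset ι) {c : ℝ} {f : ι → MvPolynomial (Fin n) K}
    (h : ∀ i ∈ s, MG P δ i1 c (f i)) : MG P δ i1 c (∑ i ∈ s, f i) := by
  classical
  induction s using Finset.induction_on with
  | empty => rw [Finset.sum_empty]; exact MG.zero c
  | insert a s ha ih =>
    rw [Finset.sum_insert ha]
    exact (h a (Finset.mem_insert_self _ _)).add
      (ih fun i hi => h i (Finset.mem_insert_of_mem hi))

theorem MG.C {c : ℝ} {f : K} (h : GO P c f) : MG P δ i1 c (MvPolynomial.C f) := fun α => by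
  classical
  rw [coeff_C]
  split_ifs with h0
  · rw [← h0]
    exact h.mono (by simp)
  · exact GO.zero _

theorem MG.one : MG P δ i1 0 (1 : MvPolynomial (Fin n) K) := by
  rw [← C_1]
  exact MG.C GO.one

theorem MG.X {i : Fin n} (hi : i ≠ i1) : MG P δ i1 0 (MvPolynomial.X i : MvPolynomial (Fin n) K) :=
  fun α => by
  classical
  rw [coeff_X]
  split_ifs with h0
  · rw [← h0, Finsupp.single_apply, if_neg hi]
    exact GO.one.mono (by simp)
  · exact GO.zero _

theorem MG.X1 : MG P δ i1 δ (MvPolynomial.X i1 : MvPolynomial (Fin n) K) :=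
  fun α => by
  classical
  rw [coeff_X]
  split_ifs with h0
  · rw [← h0, Finsupp.single_apply, if_pos rfl]
    exact GO.one.mono (by simp)
  · exact GO.zero _

theorem MG.pow {c : ℝ} {p : MvPolynomial (Fin n) K} (h : MG P δ i1 c p) (N : ℕ) :
    MG P δ i1 (N * c) (p ^ N) := by
  induction N with
  | zero =>
    rw [pow_zero]
    exact MG.one.mono (by simp)
  | succ N ih =>
    rw [pow_succ]
    exact (ih.mul h).mono (by push_cast; linarith)

theorem MG.prod {ι : Type*} (s : Finset ι) {c : ι → ℝ} {f : ι → MvPolynomial (Fin n) K}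
    (h : ∀ i ∈ s, MG P δ i1 (c i) (f i)) : MG P δ i1 (∑ i ∈ s, c i) (∏ i ∈ s, f i) := by
  classical
  induction s using Finset.induction_on with
  | empty => rw [Finset.sum_empty, Finset.prod_empty]; exact MG.one
  | insert a s ha ih =>
    rw [Finset.sum_insert ha, Finset.prod_insert ha]
    exact (h a (Finset.mem_insert_self _ _)).mul
      (ih fun i hi => h i (Finset.mem_insert_of_mem hi))

end mg

section der

variable {k K : Type} [Field k] [Field K] [Algebra k K] {P : Place k K}

/-- `D` preserves the orders of vanishing -/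
def Tan (P : Place k K) (D : Derivation k K K) : Prop := ∀ f, f ≠ 0 → GO P (P.ord f) (D f)

theorem split (P : Place k K) (f : K) (hf : f ≠ 0) {t : K} (ht0 : t ≠ 0) (ht : P.ord t = 1) :
    ∃ g : K, g ≠ 0 ∧ P.ord g = 0 ∧ f = t ^ P.ord f * g := by
  refine ⟨f * t ^ (-P.ord f), mul_ne_zero hf (zpow_ne_zero _ ht0), ?_, ?_⟩
  · rw [P.ord_mul hf (zpow_ne_zero _ ht0), P.ord_zpow, ht]
    ring
  · rw [mul_comm f, ← mul_assoc, ← zpow_add₀ ht0]
    simp

theorem der_split {D : Derivation k K K} {t g : K} (ht0 : t ≠ 0) (e : ℤ) :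
    D (t ^ e * g) = t ^ e * D g + t ^ e * g * (e * (t⁻¹ * D t)) := by
  rw [Derivation.leibniz, Derivation.leibniz_zpow]
  simp only [smul_eq_mul, zsmul_eq_mul]
  rw [zpow_sub_one₀ ht0]
  ring

theorem reg_der {D : Derivation k K K} (hD : DerReg P D) {f : K} (hf : f ≠ 0) :
    GO P (P.ord f - 1) (D f) := by
  obtain ⟨t, ht0, ht⟩ := P.surj
  obtain ⟨g, hg0, hg, hfg⟩ := split P f hf ht0 ht
  set e := P.ord f with he
  have hte : GO P (e : ℝ) (t ^ e) := Or.inr (by rw [P.ord_zpow, ht]; simp)
  rw [hfg, der_split ht0]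
  have h1 : GO P 0 (D g) := GO.reg (hD g (Or.inr hg.ge))
  have h2 : GO P 0 (D t) := GO.reg (hD t (Or.inr (by rw [ht]; norm_num)))
  have h3 : GO P 0 g := GO.reg (Or.inr hg.ge)
  have h4 : GO P (-1) t⁻¹ := Or.inr (by rw [P.ord_inv, ht]; simp)
  have h5 : GO P 0 (e : K) := by
    have := GO.const (P := P) (e : k)
    rwa [map_intCast] at this
  refine GO.add ((hte.mul h1).mono (by linarith)) ?_
  exact (((hte.mul h3).mul (h5.mul (h4.mul h2)))).mono (by linarith)

theorem tan_of {D : Derivation k K K} (hD : DerReg P D) {t : K} (ht0 : t ≠ 0) (ht : P.ord t = 1)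
    (hDt : GO P 1 (D t)) : Tan P D := by
  intro f hf
  obtain ⟨g, hg0, hg, hfg⟩ := split P f hf ht0 ht
  set e := P.ord f with he
  have hte : GO P (e : ℝ) (t ^ e) := Or.inr (by rw [P.ord_zpow, ht]; simp)
  rw [hfg, der_split ht0]
  have h1 : GO P 0 (D g) := GO.reg (hD g (Or.inr hg.ge))
  have h3 : GO P 0 g := GO.reg (Or.inr hg.ge)
  have h4 : GO P (-1) t⁻¹ := Or.inr (by rw [P.ord_inv, ht]; simp)
  have h5 : GO P 0 (e : K) := by
    have := GO.const (P := P) (e : k)
    rwa [map_intCast] at this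
  refine GO.add ((hte.mul h1).mono (by linarith)) ?_
  exact (((hte.mul h3).mul (h5.mul (h4.mul hDt)))).mono (by linarith)

end der

end Pool.Agent.V8H90.AJ
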