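import Pool.Agent.V8H90.AJ.Desc
import Pool.Agent.V8H90.JT.Sel

/-!
Families of hyperplanes with many invariant polynomials in a vector and its derivative.
-/

set_option autoImplicit false

namespace Pool.Agent.V8H90.AJ

open MvPolynomial Pool.Agent.V8H90.JT

variable {v : ℕ}

/-- a polynomial in a vector and its derivative, homogeneous of degree `d`, isobaric of weight `w`,
invariant under the multiplication of the vector by functions with constant term one, which
vanishes on the tangent vectors of the hyperplanes `ℓ (s i) = 0` -/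
structure Adm {q q0 : ℕ} (ℓ : Fin q → Fin (v + 1) → ℂ) (s : Fin q0 → Fin q) (d w : ℕ)
    (R : MvPolynomial (Fin 2 × Fin (v + 1)) ℂ) : Prop where
  hom : R.IsHomogeneous d
  inv : Inv 1 R
  van : ∀ i, Van (ℓ (s i)) R
  wt : ∀ t, coeff t R ≠ 0 → wt t = w

/-- the vectors are independent -/
def Mi {A : Type*} [CommRing A] (p : Fin 2 → Fin (v + 1) → A) : Prop :=
  ∃ i j, p 0 i * p 1 j - p 0 j * p 1 i ≠ 0

theorem Mi.indep {F : Type*} [Field F] {p : Fin 2 → Fin (v + 1) → F} (h : Mi p) :
    LinearIndependent F p := by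
  obtain ⟨i, j, hij⟩ := h
  rw [Fintype.linearIndependent_iff]
  intro g hg
  rw [Fin.sum_univ_two] at hg
  have h1 := congrFun hg i
  have h2 := congrFun hg j
  simp only [Pi.add_apply, Pi.smul_apply, smul_eq_mul, Pi.zero_apply] at h1 h2
  have h3 : g 0 * (p 0 i * p 1 j - p 0 j * p 1 i) = 0 := by linear_combination p 1 j * h1 - p 1 i * h2
  have h4 : g 1 * (p 0 i * p 1 j - p 0 j * p 1 i) = 0 := by linear_combination p 0 i * h2 - p 0 j * h1
  intro c
  fin_cases c
  · exact (mul_eq_zero.mp h3).resolve_right hij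
  · exact (mul_eq_zero.mp h4).resolve_right hij

/-- hyperplanes in general position such that every tangent direction is detected by an
invariant polynomial for `q0` of them -/
def Good {q : ℕ} (ℓ : Fin q → Fin (v + 1) → ℂ) (d q0 : ℕ) : Prop :=
  (∀ a : Fin (v + 1) → Fin q, Function.Injective a → (Matrix.of fun i j => ℓ (a i) j).det ≠ 0) ∧
  (∀ i j, i ≠ j → ∃ a b, ℓ i a * ℓ j b ≠ ℓ i b * ℓ j a) ∧
  ∀ p : Fin 2 → Fin (v + 1) → ℂ, Mi p → ∃ (s : Fin q0 → Fin q)
    (R : MvPolynomial (Fin 2 × Fin (v + 1)) ℂ), Function.Injective s ∧ R.IsHomogeneous d ∧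
      Inv 1 R ∧ (∀ i, Van (ℓ (s i)) R) ∧ eval (fun y => p y.1 y.2) R ≠ 0

theorem good_of_ai {q d q0 : ℕ} (hv : 1 ≤ v) {ℓ : Fin q → Fin (v + 1) → ℂ}
    (hℓ : AlgebraicIndependent ℚ fun y : Fin q × Fin (v + 1) => ℓ y.1 y.2)
    (h : q0 * (2 * v + d - 1).choose d < (2 * (v + 1) + d - 1).choose d)
    (hq : q0 + 2 * (v + 1) ≤ q) : Good ℓ d q0 := by
  refine ⟨?_, ?_, ?_⟩
  · intro a ha h0
    have h1 : AlgebraicIndependent ℚ fun y : Fin (v + 1) × Fin (v + 1) => ℓ (a y.1) y.2 :=
      hℓ.comp (fun y : Fin (v + 1) × Fin (v + 1) => (a y.1, y.2)) fun y y' hy => by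
        have e1 := congrArg Prod.fst hy
        have e2 := congrArg Prod.snd hy
        exact Prod.ext (ha e1) e2
    set P : MvPolynomial (Fin (v + 1) × Fin (v + 1)) ℚ := (Matrix.of fun i j => X (i, j)).det
      with hP
    have hP0 : P ≠ 0 := Matrix.det_mvPolynomialX_ne_zero (Fin (v + 1)) ℚ
    apply hP0
    apply (injective_iff_map_eq_zero _).mp h1
    rw [hP, AlgHom.map_det]
    rw [← h0]
    congr 1
    ext1 i j
    simp
  · intro i j hij
    have h01 : (0 : Fin (v + 1)) ≠ Fin.last v := by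
      intro h0
      have := congrArg Fin.val h0
      simp at this
      omega
    refine ⟨0, Fin.last v, fun h0 => ?_⟩
    set P : MvPolynomial (Fin q × Fin (v + 1)) ℚ :=
      X (i, 0) * X (j, Fin.last v) - X (i, Fin.last v) * X (j, 0) with hP
    have hP0 : P ≠ 0 := by
      intro h1
      have h2 := congrArg (eval fun y : Fin q × Fin (v + 1) =>
        if y = (i, 0) ∨ y = (j, Fin.last v) then (1 : ℚ) else 0) h1
      rw [hP] at h2
      simp [hij, h01, Ne.symm hij, Ne.symm h01] at h2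
    apply hP0
    apply (injective_iff_map_eq_zero _).mp hℓ
    rw [hP]
    simp [h0]
  · intro p hp
    obtain ⟨F, _, _, _, p', s, h1, h2, h3⟩ := exists_sel hℓ
      (fun x : Fin 2 × Fin (v + 1) => p x.1 x.2) (q0 := q0) (by
        rw [Fintype.card_prod, Fintype.card_fin, Fintype.card_fin]
        exact hq)
    have hp' : Mi fun a b => p' (a, b) := by
      obtain ⟨i, j, hij⟩ := hp
      refine ⟨i, j, fun h0 => hij ?_⟩
      have h4 := congrArg (algebraMap F ℂ) h0
      simpa only [map_sub, map_mul, map_zero, h1] using h4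
    obtain ⟨R, h4, h5, h6, h7⟩ := exists_good (k := 1) (n := v) (q := q0) (d := d) (F := F)
      (L := ℂ) hv h (p := fun a b => p' (a, b)) hp'.indep (x := fun i j => ℓ (s i) j) h3
    refine ⟨s, R, h2, h4, h5, h6, ?_⟩
    have e : (fun y : Fin 2 × Fin (v + 1) => algebraMap F ℂ (p' (y.1, y.2))) =
        fun y => p y.1 y.2 := funext fun y => h1 _
    rw [← e]
    exact h7

end Pool.Agent.V8H90.AJ
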