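import Pool.Agent.V8H90.AJ.Sec

/-!
Orders of the coefficients of the symmetric differentials at a prime divisor.
-/

set_option autoImplicit false

open FF MvPolynomial Pool.Agent.W602.GT Pool.Agent.V8H90.JT

namespace Pool.Agent.V8H90.AJ

variable {K : Type} [Field K] [Algebra ℂ K] {n v : ℕ}

theorem aeval_Qx {N : ℕ} {ℓ : Fin N → Fin (v + 1) → ℂ} {σ : Fin (v + 1) → Fin N}
    (hdet : (Mx ℓ σ).det ≠ 0) (R : MvPolynomial (Fin 2 × Fin (v + 1)) ℂ) {B : Type} [CommRing B]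
    [Algebra ℂ B] (w : Fin 2 × Fin (v + 1) → B) :
    aeval (fun x : Fin 2 × Fin (v + 1) => ∑ l, algebraMap ℂ B (ℓ (σ x.2) l) * w (x.1, l))
      (Qx (k := 1) ℓ σ R) = aeval w R := by
  unfold Qx
  rw [aeval_bind₁]
  congr 2
  funext x
  have h1 : ((Mx ℓ σ)⁻¹ * Mx ℓ σ) = 1 := Matrix.nonsing_inv_mul _ (isUnit_iff_ne_zero.mpr hdet)
  have h2 : aeval (fun x : Fin 2 × Fin (v + 1) => ∑ l, algebraMap ℂ B (ℓ (σ x.2) l) * w (x.1, l))
      (chg (k := 1) (fun i j => (Mx ℓ σ)⁻¹ i j) x) =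
      ∑ l', algebraMap ℂ B (((Mx ℓ σ)⁻¹ * Mx ℓ σ) x.2 l') * w (x.1, l') := by
    unfold chg
    simp only [map_sum, map_mul, aeval_X, aeval_C, Matrix.mul_apply, Finset.sum_mul,
      Finset.mul_sum]
    rw [Finset.sum_comm]
    exact Finset.sum_congr rfl fun l _ => Finset.sum_congr rfl fun j _ => by
      rw [Mx, Matrix.of_apply]; ring
  refine h2.trans ?_
  rw [h1]
  simp only [Matrix.one_apply, apply_ite (algebraMap ℂ B), map_one, map_zero, ite_mul, one_mul,
    zero_mul, Finset.sum_ite_eq, Finset.mem_univ, if_true]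

theorem Fp_coords {N : ℕ} {ℓ : Fin N → Fin (v + 1) → ℂ} {σ : Fin (v + 1) → Fin N}
    (hdet : (Mx ℓ σ).det ≠ 0) (R : MvPolynomial (Fin 2 × Fin (v + 1)) ℂ) (y : Fin (v + 1) → K)
    (D : Fin n → Derivation ℂ K K) :
    Fp y D R = aeval (fun x : Fin 2 × Fin (v + 1) => if x.1 = 0 then C (lf (ℓ (σ x.2)) y) else
      dp D (lf (ℓ (σ x.2)) y)) (Qx (k := 1) ℓ σ R) := by
  unfold Fp
  rw [← aeval_Qx hdet]
  congr 2
  funext x
  unfold arg
  split_ifs with h
  · simp only [lf, map_sum, C_mul]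
    rfl
  · rw [dp_lf]
    rfl

/-- the estimate for one linear form -/
theorem dp_local {P : Place ℂ K} {D : Fin n → Derivation ℂ K K} {i1 : Fin n}
    (hD : ∀ i, i ≠ i1 → Tan P (D i)) {f : K} (hf : f ≠ 0) {δ lam : ℝ}
    (hδ : 0 ≤ δ) (hlam1 : lam ≤ 1) (he : 0 ≤ P.ord f)
    (hm : Tan P (D i1) ∨ (DerReg P (D i1) ∧ (P.ord f = 0 ∨ 1 - δ ≤ (1 - lam) * P.ord f))) :
    MG P δ i1 (lam * P.ord f) (dp D f) := by
  have he' : (0 : ℝ) ≤ P.ord f := by exact_mod_cast he
  have hle : lam * P.ord f ≤ P.ord f := by nlinarith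
  unfold dp
  refine MG.sum _ fun i _ => ?_
  by_cases hi : i = i1
  · rw [hi]
    rcases hm with hT | ⟨hD1, h0 | h0⟩
    · refine ((MG.C (hT f hf)).mul MG.X1).mono ?_
      linarith
    · have h1 : GO P 0 (D i1 f) := GO.reg (hD1 f (Or.inr he))
      refine ((MG.C h1).mul MG.X1).mono ?_
      rw [h0]
      simpa using hδ
    · have h1 := reg_der hD1 hf
      refine ((MG.C h1).mul MG.X1).mono ?_
      linarith
  · refine ((MG.C (hD i hi f hf)).mul (MG.X hi)).mono ?_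
    linarith

/-- the estimate for the polynomial -/
theorem Fp_local {N : ℕ} {ℓ : Fin N → Fin (v + 1) → ℂ} {σ : Fin (v + 1) → Fin N}
    (hdet : (Mx ℓ σ).det ≠ 0) {R : MvPolynomial (Fin 2 × Fin (v + 1)) ℂ}
    (hR : ∀ i, Van (ℓ i) R) {P : Place ℂ K} {D : Fin n → Derivation ℂ K K} {i1 : Fin n}
    (hD : ∀ i, i ≠ i1 → Tan P (D i)) {y : Fin (v + 1) → K} {δ lam : ℝ}
    (hδ : 0 ≤ δ) (hlam : 0 ≤ lam) (hlam1 : lam ≤ 1) (hne : ∀ c, lf (ℓ (σ c)) y ≠ 0)
    (he : ∀ c, 0 ≤ P.ord (lf (ℓ (σ c)) y))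
    (hm : ∀ c, Tan P (D i1) ∨ (DerReg P (D i1) ∧
      (P.ord (lf (ℓ (σ c)) y) = 0 ∨ 1 - δ ≤ (1 - lam) * P.ord (lf (ℓ (σ c)) y)))) :
    MG P δ i1 (∑ c, lam * P.ord (lf (ℓ (σ c)) y)) (Fp y D R) := by
  rw [Fp_coords hdet, aeval_def, eval₂_eq']
  refine MG.sum _ fun s hs => ?_
  set W : Fin 2 × Fin (v + 1) → MvPolynomial (Fin n) K := fun x =>
    if x.1 = 0 then C (lf (ℓ (σ x.2)) y) else dp D (lf (ℓ (σ x.2)) y) with hW
  have hWl : ∀ x, MG P δ i1 (lam * P.ord (lf (ℓ (σ x.2)) y)) (W x) := by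
    intro x
    rw [hW]
    simp only
    split_ifs with h
    · refine MG.C (Or.inr ?_)
      have he' : (0 : ℝ) ≤ P.ord (lf (ℓ (σ x.2)) y) := by exact_mod_cast he x.2
      nlinarith
    · exact dp_local hD (hne _) hδ hlam1 (he _) (hm _)
  have h1 : MG P δ i1 (∑ x : Fin 2 × Fin (v + 1), (s x : ℝ) * (lam * P.ord (lf (ℓ (σ x.2)) y)))
      (∏ x, W x ^ s x) := MG.prod _ fun x _ => (hWl x).pow _
  have h2 : MG P δ i1 0 (algebraMap ℂ (MvPolynomial (Fin n) K) (coeff s (Qx (k := 1) ℓ σ R))) := by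
    rw [IsScalarTower.algebraMap_apply ℂ K (MvPolynomial (Fin n) K), algebraMap_eq]
    exact MG.C (GO.const _)
  refine (h2.mul h1).mono ?_
  rw [zero_add, Fintype.sum_prod_type_right]
  refine Finset.sum_le_sum fun c _ => ?_
  have h3 : (1 : ℝ) ≤ ∑ m : Fin 2, (s (m, c) : ℝ) := by
    have := sum_row_pos (k := 1) (Qx_pos hdet hR) hs c
    exact_mod_cast this
  have h4 : (0 : ℝ) ≤ lam * P.ord (lf (ℓ (σ c)) y) :=
    mul_nonneg hlam (by exact_mod_cast he c)
  calc lam * P.ord (lf (ℓ (σ c)) y) = 1 * (lam * P.ord (lf (ℓ (σ c)) y)) := by ring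
    _ ≤ (∑ m : Fin 2, (s (m, c) : ℝ)) * (lam * P.ord (lf (ℓ (σ c)) y)) :=
      mul_le_mul_of_nonneg_right h3 h4
    _ = _ := by rw [Finset.sum_mul]

/-- a choice of coordinates -/
theorem exists_coords {q q0 : ℕ} {ℓ : Fin q → Fin (v + 1) → ℂ}
    (hGP : ∀ a : Fin (v + 1) → Fin q, Function.Injective a →
      (Matrix.of fun i j => ℓ (a i) j).det ≠ 0) {s : Fin q0 → Fin q} (hs : Function.Injective s)
    (hq0 : v + 1 ≤ q0) (P : Place ℂ K) {y : Fin (v + 1) → K} {j0 : Fin (v + 1)} (hj0 : y j0 = 1) :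
    ∃ σ : Fin (v + 1) → Fin q0, Function.Injective σ ∧
      ∀ i, 0 < P.ord (lf (ℓ (s i)) y) → i ∈ Set.range σ := by
  classical
  set I : Finset (Fin q0) := Finset.univ.filter fun i => 0 < P.ord (lf (ℓ (s i)) y) with hI
  have hcard : I.card ≤ v + 1 := by
    by_contra hcon
    push Not at hcon
    obtain ⟨J, hJI, hJ⟩ := Finset.exists_subset_card_eq hcon.le
    set a : Fin (v + 1) → Fin q0 := fun c => (J.equivFin.symm (Fin.cast hJ.symm c)).1 with ha
    have hainj : Function.Injective a := fun c c' h =>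
      Fin.cast_injective _ (J.equivFin.symm.injective (Subtype.ext h))
    have haI : ∀ c, 0 < P.ord (lf (ℓ (s (a c))) y) := fun c =>
      (Finset.mem_filter.mp (hJI (J.equivFin.symm (Fin.cast hJ.symm c)).2)).2
    have hdet : (Mx (fun i => ℓ (s i)) a).det ≠ 0 := hGP (fun c => s (a c)) (hs.comp hainj)
    have h1 : ((Mx (fun i => ℓ (s i)) a)⁻¹ * Mx (fun i => ℓ (s i)) a) = 1 :=
      Matrix.nonsing_inv_mul _ (isUnit_iff_ne_zero.mpr hdet)
    have h2 : (1 : K) = ∑ c, algebraMap ℂ K ((Mx (fun i => ℓ (s i)) a)⁻¹ j0 c) *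
        lf (ℓ (s (a c))) y := by
      have h3 : ∑ c, algebraMap ℂ K ((Mx (fun i => ℓ (s i)) a)⁻¹ j0 c) * lf (ℓ (s (a c))) y =
          ∑ l, algebraMap ℂ K (((Mx (fun i => ℓ (s i)) a)⁻¹ * Mx (fun i => ℓ (s i)) a) j0 l) *
            y l := by
        unfold lf
        simp only [Matrix.mul_apply, Finset.mul_sum, Finset.sum_mul, map_sum, map_mul]
        rw [Finset.sum_comm]
        exact Finset.sum_congr rfl fun l _ => Finset.sum_congr rfl fun j _ => by
          rw [Mx, Matrix.of_apply]; ring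
      rw [h3, h1]
      simp only [Matrix.one_apply, apply_ite (algebraMap ℂ K), map_one, map_zero, ite_mul,
        one_mul, zero_mul, Finset.sum_ite_eq, Finset.mem_univ, if_true]
      exact hj0.symm
    have h3 : GO P 1 (1 : K) := by
      rw [h2]
      refine GO.sum _ fun c _ => ?_
      have h4 : GO P 1 (lf (ℓ (s (a c))) y) := by
        right
        have := haI c
        exact_mod_cast this
      exact ((GO.const _).mul h4).mono (by norm_num)
    have h4 := h3.resolve_left one_ne_zero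
    rw [P.ord_one] at h4
    norm_num at h4
  obtain ⟨J, hIJ, hJ⟩ := Finset.exists_superset_card_eq hcard (by
    rw [Fintype.card_fin]
    exact hq0)
  refine ⟨fun c => (J.equivFin.symm (Fin.cast hJ.symm c)).1, fun c c' h =>
    Fin.cast_injective _ (J.equivFin.symm.injective (Subtype.ext h)), fun i hi => ?_⟩
  have hiJ : i ∈ J := hIJ (Finset.mem_filter.mpr ⟨Finset.mem_univ _, hi⟩)
  refine ⟨Fin.cast hJ (J.equivFin ⟨i, hiJ⟩), ?_⟩
  simp

/-- the symmetric differential -/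
noncomputable def Sc {q q0 : ℕ} (ℓ : Fin q → Fin (v + 1) → ℂ) (s : Fin q0 → Fin q) (g h e : ℕ)
    (j1 : Fin (v + 1)) (u : Fin (v + 1) → K) (D : Fin n → Derivation ℂ K K)
    (R : MvPolynomial (Fin 2 × Fin (v + 1)) ℂ) : MvPolynomial (Fin n) K :=
  C ((∏ i, lf (ℓ (s i)) u)⁻¹ ^ g * u j1 ^ e) * Fp u D R ^ h

/-- the estimate for the symmetric differential -/
theorem Sc_local {q q0 d w g h e b : ℕ} {ℓ : Fin q → Fin (v + 1) → ℂ}
    (hGP : ∀ a : Fin (v + 1) → Fin q, Function.Injective a →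
      (Matrix.of fun i j => ℓ (a i) j).det ≠ 0) {s : Fin q0 → Fin q} (hs : Function.Injective s)
    (hq0 : v + 1 ≤ q0) {R : MvPolynomial (Fin 2 × Fin (v + 1)) ℂ} (hR : Adm ℓ s d w R)
    {P : Place ℂ K} {D : Fin n → Derivation ℂ K K} {i1 : Fin n}
    (hD : ∀ i, i ≠ i1 → Tan P (D i)) {u : Fin (v + 1) → K} {δ : ℝ}
    (hδ : 0 ≤ δ) (hne : ∀ i, lf (ℓ i) u ≠ 0) {j0 : Fin (v + 1)} (hj0 : u j0 ≠ 0)
    (hmin : ∀ j, u j = 0 ∨ P.ord (u j0) ≤ P.ord (u j))
    (hgh : g ≤ h) (hb : b + d * h + e = q0 * g)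
    (hm : ∀ i, Tan P (D i1) ∨ (DerReg P (D i1) ∧ (P.ord (lf (ℓ i) u) = P.ord (u j0) ∨
      h * (1 - δ) ≤ ((h : ℝ) - g) * (P.ord (lf (ℓ i) u) - P.ord (u j0))))) (j1 : Fin (v + 1)) :
    MG P δ i1 (-(b * P.ord (u j0))) (Sc ℓ s g h e j1 u D R) := by
  classical
  set f := u j0 with hf
  set y : Fin (v + 1) → K := fun j => f⁻¹ * u j with hy
  have huy : u = fun j => f * y j := by
    funext j
    rw [hy]
    simp only
    rw [← mul_assoc, mul_inv_cancel₀ hj0, one_mul]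
  have hyj0 : y j0 = 1 := inv_mul_cancel₀ hj0
  have hlf : ∀ a : Fin (v + 1) → ℂ, lf a u = f * lf a y := by
    intro a
    conv_lhs => rw [huy]
    exact lf_smul a f y
  have hney : ∀ i, lf (ℓ i) y ≠ 0 := by
    intro i h0
    apply hne i
    rw [hlf, h0, mul_zero]
  have hordy : ∀ i, P.ord (lf (ℓ i) u) = P.ord f + P.ord (lf (ℓ i) y) := by
    intro i
    rw [hlf, P.ord_mul hj0 (hney i)]
  have hyr : ∀ j, GO P 0 (y j) := by
    intro j
    rcases hmin j with h0 | h0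
    · left
      rw [hy]
      simp only
      rw [h0, mul_zero]
    · by_cases h1 : u j = 0
      · left
        rw [hy]
        simp only
        rw [h1, mul_zero]
      · right
        rw [hy]
        simp only
        rw [P.ord_mul (inv_ne_zero hj0) h1, P.ord_inv]
        have : (0 : ℤ) ≤ -P.ord f + P.ord (u j) := by omega
        exact_mod_cast this
  have hregy : ∀ i, 0 ≤ P.ord (lf (ℓ i) y) := by
    intro i
    have h1 : GO P 0 (lf (ℓ i) y) := GO.sum _ fun j _ => by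
      have := (GO.const (P := P) (ℓ i j)).mul (hyr j)
      simpa using this
    have := h1.resolve_left (hney i)
    exact_mod_cast this
  obtain ⟨σ, hσ, hσr⟩ := exists_coords hGP hs hq0 P hyj0
  rcases Nat.eq_zero_or_pos h with hh | hh
  · -- trivial case
    have hg : g = 0 := by omega
    subst hh hg
    have hb0 : b = 0 := by omega
    have he0 : e = 0 := by omega
    subst hb0 he0
    unfold Sc
    rw [pow_zero, pow_zero, pow_zero, mul_one, mul_one, C_1]
    exact MG.one.mono (by simp)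
  have hhR : (0 : ℝ) < h := by exact_mod_cast hh
  set lam : ℝ := g / h with hlam
  have hlam0 : 0 ≤ lam := by positivity
  have hlam1 : lam ≤ 1 := by
    rw [hlam, div_le_one hhR]
    exact_mod_cast hgh
  have hlamh : h * lam = g := by
    rw [hlam]
    field_simp
  have hFy := Fp_local (ℓ := fun i => ℓ (s i)) (σ := σ)
    (hGP (fun c => s (σ c)) (hs.comp hσ)) hR.van hD (y := y) hδ hlam0 hlam1
    (fun c => hney _) (fun c => hregy _) (fun c => by
      rcases hm (s (σ c)) with hT | ⟨hD1, h0 | h0⟩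
      · exact Or.inl hT
      · refine Or.inr ⟨hD1, Or.inl ?_⟩
        have := hordy (s (σ c))
        omega
      · refine Or.inr ⟨hD1, Or.inr ?_⟩
        rw [hordy] at h0
        push_cast at h0
        rw [add_sub_cancel_left] at h0
        have e : (h : ℝ) * (1 - lam) = h - g := by rw [mul_sub, mul_one, hlamh]
        rw [← mul_le_mul_iff_right₀ hhR, ← mul_assoc, e]
        exact h0)
  have hsum : ∑ c, lam * (P.ord (lf (ℓ (s (σ c))) y) : ℝ) =
      lam * ∑ i : Fin q0, (P.ord (lf (ℓ (s i)) y) : ℝ) := by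
    rw [← Finset.mul_sum]
    congr 1
    rw [← Finset.sum_image (s := Finset.univ) (g := σ)
      (f := fun i => (P.ord (lf (ℓ (s i)) y) : ℝ)) fun c _ c' _ h => hσ h]
    apply Finset.sum_subset (Finset.subset_univ _)
    intro i _ hi
    have h0 : P.ord (lf (ℓ (s i)) y) = 0 := by
      by_contra hne'
      have h1 := hregy (s i)
      obtain ⟨c, hc⟩ := hσr i (by omega)
      exact hi (Finset.mem_image.mpr ⟨c, Finset.mem_univ _, hc⟩)
    rw [h0]
    simp
  rw [hsum] at hFy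
  have e1 : Sc ℓ s g h e j1 u D R = C ((f ^ q0)⁻¹ ^ g * f ^ e * (f ^ d) ^ h) *
      (C ((∏ i, lf (ℓ (s i)) y)⁻¹ ^ g * y j1 ^ e) * Fp y D R ^ h) := by
    unfold Sc
    have h1 : Fp u D R = C (f ^ d) * Fp y D R := by
      conv_lhs => rw [huy]
      exact Fp_scale hR y D hj0
    have h2 : ∏ i, lf (ℓ (s i)) u = f ^ q0 * ∏ i, lf (ℓ (s i)) y := by
      simp only [hlf]
      rw [Finset.prod_mul_distrib, Finset.prod_const, Finset.card_univ, Fintype.card_fin]
    have h3 : u j1 = f * y j1 := congrFun huy j1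
    rw [h1, h2, h3, mul_inv, mul_pow, mul_pow, mul_pow]
    simp only [C_mul, C_pow]
    ring
  rw [e1]
  have hf1 : GO P (-(b * P.ord f)) ((f ^ q0)⁻¹ ^ g * f ^ e * (f ^ d) ^ h) := by
    right
    rw [P.ord_mul (mul_ne_zero (pow_ne_zero _ (inv_ne_zero (pow_ne_zero _ hj0)))
      (pow_ne_zero _ hj0)) (pow_ne_zero _ (pow_ne_zero _ hj0)),
      P.ord_mul (pow_ne_zero _ (inv_ne_zero (pow_ne_zero _ hj0))) (pow_ne_zero _ hj0),
      P.ord_pow, P.ord_inv, P.ord_pow, P.ord_pow, P.ord_pow, P.ord_pow]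
    push_cast
    have hbR : (b : ℝ) + d * h + e = q0 * g := by exact_mod_cast hb
    apply le_of_eq
    linear_combination (-(P.ord f : ℝ)) * hbR
  have hf2 : GO P (-(g * ∑ i, (P.ord (lf (ℓ (s i)) y) : ℝ)))
      ((∏ i, lf (ℓ (s i)) y)⁻¹ ^ g * y j1 ^ e) := by
    have h1 : GO P (-(g * ∑ i, (P.ord (lf (ℓ (s i)) y) : ℝ)))
        ((∏ i, lf (ℓ (s i)) y)⁻¹ ^ g) := by
      right
      rw [P.ord_pow, P.ord_inv]
      have h2 : ∀ t : Finset (Fin q0), P.ord (∏ i ∈ t, lf (ℓ (s i)) y) =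
          ∑ i ∈ t, P.ord (lf (ℓ (s i)) y) := by
        intro t
        induction t using Finset.induction_on with
        | empty => rw [Finset.prod_empty, Finset.sum_empty, P.ord_one]
        | insert a t ha ih =>
          rw [Finset.prod_insert ha, Finset.sum_insert ha, P.ord_mul (hney _)
            (Finset.prod_ne_zero_iff.mpr fun i _ => hney _), ih]
      rw [h2]
      push_cast
      apply le_of_eq
      ring
    exact (h1.mul ((hyr j1).pow e)).mono (by simp)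
  refine ((MG.C hf1).mul ((MG.C hf2).mul (hFy.pow h))).mono (le_of_eq ?_)
  rw [← mul_assoc (h : ℝ), hlamh]
  ring

end Pool.Agent.V8H90.AJ
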