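import Pool.Agent.V8H90.AJ.Ge
import Pool.Agent.Y174.SD.G3
import Pool.Agent.Y212.SD.Int
import Pool.Agent.Y212.SD.GP
import Pool.Agent.Y888.SD.Min
import Pool.Agent.Y638.SD.Gcd
import Pool.Agent.Y638.SD.Cramer
import Pool.Agent.Y108.SD.Char
import Pool.Agent.Y301.SD.DENS

/-!
Semi-invariants of systems of forms without common zeros. (The proofs of `null`, `exists_semi` and
`weight` are those of `Pool.Agent.Y174`.)
-/

set_option autoImplicit false
set_option linter.unusedSectionVars false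

open FF MvPolynomial Pool.Agent.Y174.T Pool.Agent.Y174.SD

namespace Pool.Agent.V8H90.AJ

/-- the coefficients -/
noncomputable def cof {R : Type*} [CommRing R] {n : ℕ} (m : ℕ)
    (a : Fin n → MvPolynomial (Fin n) R) (p : Fin n × Ex n m) : R := coeff p.2.1 (a p.1)

/-- Nullstellensatz for homogeneous polynomials -/
theorem null {K L : Type} [Field K] [Field L] [Algebra K L] [IsAlgClosed L] {n : ℕ}
    (S : Set (MvPolynomial (Fin n) K))
    (h : ∀ c : Fin n → L, c ≠ 0 → ∃ p ∈ S, aeval c p ≠ 0) :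
    ∃ (M : ℕ) (H : Fin M → MvPolynomial (Fin n) K) (N : ℕ), (∀ j, H j ∈ S) ∧
      ∀ β : Fin n →₀ ℕ, β.degree = N → monomial β 1 ∈ Ideal.span (Set.range H) := by
  classical
  have h1 : ∀ i, (X i : MvPolynomial (Fin n) K) ∈ (Ideal.span S).radical := by
    intro i
    rw [← vanishingIdeal_zeroLocus_eq_radical (K := L), mem_vanishingIdeal_iff]
    intro x hx
    rw [zeroLocus_span] at hx
    have hx0 : x = 0 := by
      by_contra hne
      obtain ⟨p, hp, hp0⟩ := h x hne
      exact hp0 (hx p hp)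
    rw [aeval_X, hx0]
    rfl
  choose e he using h1
  obtain ⟨t, htS, ht⟩ := (Submodule.fg_span_iff_fg_span_finset_subset S).1
    (IsNoetherian.noetherian (Ideal.span S))
  let eq := t.equivFin
  refine ⟨t.card, fun j => ((eq.symm j : t) : MvPolynomial (Fin n) K), ∑ i, e i + 1,
    fun j => htS (eq.symm j).2, fun β hβ => ?_⟩
  have hr : Set.range (fun j => ((eq.symm j : t) : MvPolynomial (Fin n) K)) = (t : Set _) := by
    ext x
    constructor
    · rintro ⟨j, rfl⟩
      exact (eq.symm j).2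
    · intro hx
      exact ⟨eq ⟨x, hx⟩, by simp⟩
  rw [hr]
  have hs : Ideal.span (t : Set (MvPolynomial (Fin n) K)) = Ideal.span S := ht.symm
  rw [hs]
  obtain ⟨i, hi⟩ : ∃ i, e i ≤ β i := by
    by_contra hcon
    push Not at hcon
    rw [Finsupp.degree_eq_sum] at hβ
    have : ∑ i, β i ≤ ∑ i, e i := Finset.sum_le_sum fun i _ => (hcon i).le
    omega
  have h2 : (monomial β 1 : MvPolynomial (Fin n) K) =
      monomial (β - Finsupp.single i (e i)) 1 * X i ^ e i := by
    rw [X_pow_eq_monomial, monomial_mul, one_mul,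
      tsub_add_cancel_of_le (Finsupp.single_le_iff.2 hi)]
  rw [h2]
  exact Ideal.mul_mem_left _ _ (he i)

section

variable {k K : Type} [Field k] [CharZero k] [Field K] [Algebra k K] {s m : ℕ}

/-- a semi-invariant of positive weight which does not vanish -/
theorem exists_semi {N : ℕ} (hs : 1 ≤ s) (hm : 1 ≤ m) (b : Fin s → MvPolynomial (Fin s) K)
    (hb : ∀ j, (b j).IsHomogeneous m)
    (hN : ∀ β : Fin s →₀ ℕ, β.degree = N → monomial β 1 ∈ Ideal.span (Set.range b)) :
    ∃ (Q : Cf k s m) (W : ℕ), 1 ≤ W ∧ SemiInv Q W ∧ aeval (cof m b) Q ≠ 0 := by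
  obtain ⟨D, hD, hD0⟩ := Pool.Agent.Y638.SD.t_CRAMER k K s m N (cof m b) (by
    intro β hβ
    have h1 : fm (cof m b) = b := by
      funext j
      exact fm_coeff hb j
    rw [h1]
    exact hN β hβ)
  have hDne : D ≠ 0 := by
    rintro rfl
    exact hD0 (map_zero _)
  obtain ⟨r, w, -, -, -, hw, hrs, hrd, -, -⟩ := relation Pool.Agent.Y212.SD.t_INT
    Pool.Agent.Y888.SD.t_MIN (Pool.Agent.Y638.SD.t_GCD Pool.Agent.Y108.SD.t_CHAR) k hs hm
    ⟨D, hD, hDne⟩
  refine ⟨r, w, hw, hrs, fun h0 => ?_⟩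
  obtain ⟨q, hq⟩ := hrd D hD
  apply hD0
  rw [hq, map_mul, h0, zero_mul]

end

theorem aeval_scale {σ k : Type*} [Fintype σ] [CommRing k] (c : σ → k)
    (Q : MvPolynomial σ k) (μ : σ →₀ ℕ) :
    coeff μ (aeval (fun p => (C (c p) * X p : MvPolynomial σ k)) Q) =
      (∏ p, c p ^ μ p) * coeff μ Q := by
  classical
  have h1 : ∀ (ν : σ →₀ ℕ) (a : k), aeval (fun p => (C (c p) * X p : MvPolynomial σ k))
      (monomial ν a) = monomial ν ((∏ p, c p ^ ν p) * a) := by
    intro ν a
    rw [aeval_monomial, Finsupp.prod_fintype _ _ (fun i => pow_zero _)]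
    simp only [mul_pow]
    rw [Finset.prod_mul_distrib, algebraMap_eq]
    have h2 : (∏ p, (C (c p) : MvPolynomial σ k) ^ ν p) = C (∏ p, c p ^ ν p) := by
      rw [map_prod]
      exact Finset.prod_congr rfl fun p _ => (map_pow _ _ _).symm
    have h3 : (∏ p, (X p : MvPolynomial σ k) ^ ν p) = monomial ν 1 := by
      rw [monomial_eq, C_1, one_mul, Finsupp.prod_fintype _ _ (fun i => pow_zero _)]
    rw [h2, h3, ← mul_assoc, ← C_mul, C_mul_monomial, mul_one, mul_comm]
  conv_lhs => rw [← support_sum_monomial_coeff Q]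
  rw [map_sum, coeff_sum]
  simp only [h1, coeff_monomial]
  rw [Finset.sum_ite_eq']
  split_ifs with h
  · rfl
  · rw [notMem_support_iff.1 h, mul_zero]

theorem trans_diag {k : Type*} [Field k] {n m : ℕ} (d : Fin n → k) (p : Fin n × Ex n m) :
    Pool.Agent.Y174.SD.trans ((Matrix.diagonal d).map C)
      (fun p => (X p : Pool.Agent.Y174.SD.Cf k n m)) p = C (∏ c, d c ^ p.2.1 c) * X p := by
  classical
  unfold Pool.Agent.Y174.SD.trans
  have h1 : ∀ q : MvPolynomial (Fin n) (Pool.Agent.Y174.SD.Cf k n m),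
      Pool.Agent.Y174.SD.lsub ((Matrix.diagonal d).map C) q =
      aeval (fun c => (C (C (d c)) * X c : MvPolynomial (Fin n) (Pool.Agent.Y174.SD.Cf k n m))) q := by
    intro q
    unfold Pool.Agent.Y174.SD.lsub
    congr 2
    funext c
    rw [Finset.sum_eq_single c]
    · rw [Matrix.map_apply, Matrix.diagonal_apply_eq]
    · intro i _ hi
      rw [Matrix.map_apply, Matrix.diagonal_apply_ne _ hi, C_0, C_0, zero_mul]
    · intro h
      exact absurd (Finset.mem_univ c) h
  rw [h1, aeval_scale, Pool.Agent.Y174.SD.coeff_fm]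
  congr 1
  rw [map_prod]
  exact Finset.prod_congr rfl fun c _ => (map_pow _ _ _).symm

/-- the weight -/
theorem weight {k : Type*} [Field k] [Infinite k] {n m W : ℕ} (i0 : Fin n)
    {Q : Pool.Agent.Y174.SD.Cf k n m} (hQ : Pool.Agent.Y174.SD.SemiInv Q W)
    {μ : Fin n × Ex n m →₀ ℕ} (hμ : μ ∈ Q.support) :
    ∑ p, μ p * p.2.1 i0 = W := by
  classical
  have hμ0 : coeff μ Q ≠ 0 := mem_support_iff.1 hμ
  have key : ∀ x : k, x ≠ 0 → x ^ (∑ p, μ p * p.2.1 i0) = x ^ W := by
    intro x hx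
    let d : Fin n → k := Function.update 1 i0 x
    have hdet : (Matrix.diagonal d).det = x := by
      rw [Matrix.det_diagonal, ← Finset.mul_prod_erase Finset.univ _ (Finset.mem_univ i0)]
      change d i0 * _ = _
      rw [Finset.prod_eq_one, mul_one]
      · exact Function.update_self _ _ _
      · intro c hc
        exact Function.update_of_ne (Finset.ne_of_mem_erase hc) _ _
    have h1 := congrArg (coeff μ) (hQ (Matrix.diagonal d) (by rw [hdet]; exact hx))
    rw [hdet, coeff_C_mul] at h1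
    have h2 : Pool.Agent.Y174.SD.act (Matrix.diagonal d) Q =
        aeval (fun p => (C (∏ c, d c ^ p.2.1 c) * X p : Pool.Agent.Y174.SD.Cf k n m)) Q := by
      unfold Pool.Agent.Y174.SD.act
      congr 2
      funext p
      exact trans_diag d p
    rw [h2, aeval_scale] at h1
    have h3 := mul_right_cancel₀ hμ0 h1
    rw [← h3, ← Finset.prod_pow_eq_pow_sum]
    refine Finset.prod_congr rfl fun p _ => ?_
    rw [mul_comm, pow_mul]
    congr 1
    rw [← Finset.mul_prod_erase Finset.univ _ (Finset.mem_univ i0), Finset.prod_eq_one, mul_one]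
    · change x ^ _ = (Function.update 1 i0 x : Fin n → k) i0 ^ _
      rw [Function.update_self]
    · intro c hc
      change (Function.update 1 i0 x : Fin n → k) c ^ _ = 1
      rw [Function.update_of_ne (Finset.ne_of_mem_erase hc)]
      exact one_pow _
  by_contra hne
  have h1 : (Polynomial.X ^ (∑ p, μ p * p.2.1 i0) - Polynomial.X ^ W : Polynomial k) * Polynomial.X
      = 0 := by
    refine Polynomial.funext fun x => ?_
    rw [Polynomial.eval_mul, Polynomial.eval_sub, Polynomial.eval_pow, Polynomial.eval_pow,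
      Polynomial.eval_X, Polynomial.eval_zero]
    by_cases hx : x = 0
    · rw [hx, mul_zero]
    · rw [key x hx, sub_self, zero_mul]
  have h2 := (mul_eq_zero.1 h1).resolve_right Polynomial.X_ne_zero
  have h3 := congrArg (fun q => Polynomial.coeff q W) (sub_eq_zero.1 h2)
  simp only [Polynomial.coeff_X_pow] at h3
  rw [if_neg (Ne.symm hne), if_pos trivial] at h3
  exact zero_ne_one h3

/-- semi-invariants are homogeneous -/
theorem exists_degree {k : Type*} [Field k] [Infinite k] {n m W : ℕ} (hn : 1 ≤ n) (hm : 1 ≤ m)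
    (hW : 1 ≤ W) {Q : Pool.Agent.Y174.SD.Cf k n m} (hQ : Pool.Agent.Y174.SD.SemiInv Q W)
    (hQ0 : Q ≠ 0) : ∃ g : ℕ, 1 ≤ g ∧ ∀ μ ∈ Q.support, ∑ p, μ p = g := by
  classical
  have h1 : ∀ μ ∈ Q.support, m * ∑ p, μ p = n * W := by
    intro μ hμ
    have h2 : ∑ i0 : Fin n, ∑ p, μ p * p.2.1 i0 = n * W := by
      rw [Finset.sum_congr rfl fun i0 _ => weight i0 hQ hμ]
      simp
    rw [← h2, Finset.sum_comm, Finset.mul_sum]
    refine Finset.sum_congr rfl fun p _ => ?_
    rw [← Finset.mul_sum, mul_comm]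
    congr 1
    have h3 := p.2.2
    rw [Finsupp.degree_eq_sum] at h3
    exact h3.symm
  obtain ⟨μ0, hμ0⟩ := support_nonempty.mpr hQ0
  refine ⟨∑ p, μ0 p, ?_, fun μ hμ => ?_⟩
  · have h2 := h1 μ0 hμ0
    have h3 : 0 < m * ∑ p, μ0 p := by
      rw [h2]
      positivity
    exact Nat.pos_of_mul_pos_left h3
  · have h2 := h1 μ0 hμ0
    have h3 := h1 μ hμ
    rw [← h2] at h3
    exact Nat.eq_of_mul_eq_mul_left (by omega) h3

/-- the values of a semi-invariant -/
theorem semi_local {k K : Type} [Field k] [Infinite k] [Field K] [Algebra k K] {n m W g : ℕ}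
    {P : Place k K} {δ τ : ℝ} {i1 : Fin n} {Q : Pool.Agent.Y174.SD.Cf k n m}
    (hQ : Pool.Agent.Y174.SD.SemiInv Q W) (hg : ∀ μ ∈ Q.support, ∑ p, μ p = g)
    {a : Fin n → MvPolynomial (Fin n) K} (ha : ∀ j, MG P δ i1 τ (a j)) :
    GO P (g * τ - W * δ) (aeval (cof m a) Q) := by
  classical
  rw [aeval_def, eval₂_eq']
  refine GO.sum _ fun μ hμ => ?_
  have h1 : GO P (∑ p : Fin n × Ex n m, (μ p : ℝ) * (τ - (p.2.1 i1 : ℕ) * δ))
      (∏ p, cof m a p ^ μ p) :=
    GO.prod _ fun p _ => (ha p.1 p.2.1).pow _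
  refine ((GO.const _).mul h1).mono (le_of_eq ?_)
  have h2 : (∑ p : Fin n × Ex n m, (μ p : ℝ)) = g := by
    have := hg μ hμ
    exact_mod_cast this
  have h3 : (∑ p : Fin n × Ex n m, (μ p : ℝ) * (p.2.1 i1 : ℕ)) = W := by
    have := weight i1 hQ hμ
    exact_mod_cast this
  have h4 : ∑ p : Fin n × Ex n m, (μ p : ℝ) * (τ - (p.2.1 i1 : ℕ) * δ) =
      (∑ p : Fin n × Ex n m, (μ p : ℝ)) * τ -
        (∑ p : Fin n × Ex n m, (μ p : ℝ) * (p.2.1 i1 : ℕ)) * δ := by
    rw [Finset.sum_mul, Finset.sum_mul, ← Finset.sum_sub_distrib]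
    exact Finset.sum_congr rfl fun p _ => by ring
  rw [h4, h2, h3, zero_add]

end Pool.Agent.V8H90.AJ
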