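import Pool.Agent.V8H90.AJ.Local
import Pool.Agent.V8H90.AJ.Semi
import Pool.Agent.H135R2.VS.Der

/-!
Pluricanonical forms on generically finite covers of subvarieties of projective space, from
symmetric differentials without common zeros.
-/

set_option autoImplicit false

open FF MvPolynomial Pool.Agent.W602.GT Pool.Agent.V8H90.JT

namespace Pool.Agent.V8H90.AJ

/-- an isobaric invariant polynomial for `q0` of the hyperplanes -/
structure Dat {q v : ℕ} (ℓ : Fin q → Fin (v + 1) → ℂ) (q0 d : ℕ) where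
  s : Fin q0 → Fin q
  w : ℕ
  R : MvPolynomial (Fin 2 × Fin (v + 1)) ℂ
  inj : Function.Injective s
  w1 : 1 ≤ w
  wd : w ≤ d
  adm : Adm ℓ s d w R

section

variable {K : Type} [Field K] [Algebra ℂ K] {n v q q0 d : ℕ} {ℓ : Fin q → Fin (v + 1) → ℂ}

/-- the symmetric differentials of the same degree -/
noncomputable def sD (M b : ℕ) (j1 : Fin (v + 1)) (u : Fin (v + 1) → K)
    (D : Fin n → Derivation ℂ K K) (c : Dat ℓ q0 d) : MvPolynomial (Fin n) K :=
  Sc ℓ c.s (M * (d.factorial / c.w)) ((M + 1) * (d.factorial / c.w))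
    (d.factorial / c.w * b - b) j1 u D c.R

theorem dvd_fac (c : Dat ℓ q0 d) : c.w * (d.factorial / c.w) = d.factorial :=
  Nat.mul_div_cancel' (Nat.dvd_factorial c.w1 c.wd)

theorem one_le_t (c : Dat ℓ q0 d) : 1 ≤ d.factorial / c.w := by
  have h1 := dvd_fac c
  have h2 := d.factorial_pos
  by_contra hcon
  have h3 : d.factorial / c.w = 0 := Nat.eq_zero_of_not_pos hcon
  rw [h3, mul_zero] at h1
  omega

theorem sD_hom (M b : ℕ) (j1 : Fin (v + 1)) (u : Fin (v + 1) → K)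
    (D : Fin n → Derivation ℂ K K) (c : Dat ℓ q0 d) :
    (sD M b j1 u D c).IsHomogeneous ((M + 1) * d.factorial) := by
  unfold sD Sc
  have h1 := (isHomogeneous_C (Fin n) ((∏ i, lf (ℓ (c.s i)) u)⁻¹ ^ (M * (d.factorial / c.w)) *
    u j1 ^ (d.factorial / c.w * b - b))).mul
    ((Fp_hom c.adm u D).pow ((M + 1) * (d.factorial / c.w)))
  have h2 : 0 + c.w * ((M + 1) * (d.factorial / c.w)) = (M + 1) * d.factorial := by
    calc 0 + c.w * ((M + 1) * (d.factorial / c.w)) = (M + 1) * (c.w * (d.factorial / c.w)) := by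
          ring
      _ = _ := by rw [dvd_fac c]
  rw [h2] at h1
  exact h1

theorem sD_trans (M b : ℕ) (j1 : Fin (v + 1)) (u : Fin (v + 1) → K)
    (D : Fin n → Derivation ℂ K K) (A : Matrix (Fin n) (Fin n) K) (c : Dat ℓ q0 d) :
    sD M b j1 u (fun i => ∑ l, A i l • D l) c =
      Pool.Agent.Y174.SD.lsub A (sD M b j1 u D c) := by
  have e : ∀ (x : K) (F : MvPolynomial (Fin n) K) (h : ℕ),
      Pool.Agent.Y174.SD.lsub A (C x * F ^ h) = C x * Pool.Agent.Y174.SD.lsub A F ^ h := by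
    intro x F h
    rw [map_mul, map_pow]
    congr 1
    exact (Pool.Agent.Y174.SD.lsub A).commutes x
  unfold sD Sc
  rw [e, Fp_trans]
  rfl

theorem sD_local {M b : ℕ} (hG : ∀ a : Fin (v + 1) → Fin q, Function.Injective a →
      (Matrix.of fun i j => ℓ (a i) j).det ≠ 0) (hq0 : v + 1 ≤ q0)
    (hb : b + d * (M + 1) = M * q0)
    {P : Place ℂ K} {D : Fin n → Derivation ℂ K K} {i1 : Fin n}
    (hD : ∀ i, i ≠ i1 → Tan P (D i)) {u : Fin (v + 1) → K} {δ : ℝ}
    (hδ : 0 ≤ δ) (hne : ∀ i, lf (ℓ i) u ≠ 0) {j0 : Fin (v + 1)} (hj0 : u j0 ≠ 0)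
    (hmin : ∀ j, u j = 0 ∨ P.ord (u j0) ≤ P.ord (u j))
    (hm : Tan P (D i1) ∨ (DerReg P (D i1) ∧ ∀ i, (P.ord (lf (ℓ i) u) = P.ord (u j0) ∨
      ((M : ℝ) + 1) * (1 - δ) ≤ P.ord (lf (ℓ i) u) - P.ord (u j0)))) (j1 : Fin (v + 1))
    (c : Dat ℓ q0 d) : MG P δ i1 (-(b * P.ord (u j0))) (sD M b j1 u D c) := by
  have ht := one_le_t c
  set t := d.factorial / c.w with htdef
  unfold sD
  rw [← htdef]
  have hbt : b ≤ t * b := Nat.le_mul_of_pos_left b ht
  have htR : (0 : ℝ) ≤ t := Nat.cast_nonneg t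
  refine Sc_local hG c.inj hq0 c.adm hD hδ hne hj0 hmin ?_ ?_ ?_ j1
  · exact Nat.mul_le_mul_right _ (Nat.le_succ M)
  · obtain ⟨e, he⟩ := Nat.exists_eq_add_of_le hbt
    rw [he, Nat.add_sub_cancel_left]
    have h1 : t * (b + d * (M + 1)) = t * (M * q0) := by rw [hb]
    have h2 : t * (b + d * (M + 1)) = t * b + d * ((M + 1) * t) := by ring
    rw [h2, he] at h1
    calc b + d * ((M + 1) * t) + e = b + e + d * ((M + 1) * t) := by ring
      _ = t * (M * q0) := h1
      _ = q0 * (M * t) := by ring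
  · intro i
    rcases hm with hT | ⟨hD1, hm⟩
    · exact Or.inl hT
    · refine Or.inr ⟨hD1, ?_⟩
      rcases hm i with h0 | h0
      · exact Or.inl h0
      · right
        push_cast
        have h1 := mul_le_mul_of_nonneg_left h0 htR
        nlinarith

theorem sD_ne {M b : ℕ} {Λ : Type} [Field Λ] [Algebra K Λ] [Algebra ℂ Λ] [IsScalarTower ℂ K Λ]
    {j1 : Fin (v + 1)} {u : Fin (v + 1) → K} (hj1 : u j1 ≠ 0) (hne : ∀ i, lf (ℓ i) u ≠ 0)
    {D : Fin n → Derivation ℂ K K} {c : Fin n → Λ} {X : Dat ℓ q0 d}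
    (h : aeval (fun y : Fin 2 × Fin (v + 1) => if y.1 = 0 then algebraMap K Λ (u y.2) else
      ∑ i, c i * algebraMap K Λ (D i (u y.2))) X.R ≠ 0) : aeval c (sD M b j1 u D X) ≠ 0 := by
  unfold sD Sc
  rw [map_mul, map_pow, aeval_C]
  refine mul_ne_zero ?_ (pow_ne_zero _ ?_)
  · rw [Ne, FaithfulSMul.algebraMap_eq_zero_iff]
    exact mul_ne_zero (pow_ne_zero _ (inv_ne_zero (Finset.prod_ne_zero_iff.mpr fun i _ => hne _)))
      (pow_ne_zero _ hj1)
  · unfold Fp
    have h2 := comp_aeval_apply (R := ℂ) (f := arg u D) ((aeval c :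
        MvPolynomial (Fin n) K →ₐ[K] Λ).restrictScalars ℂ) X.R
    change ((aeval c : MvPolynomial (Fin n) K →ₐ[K] Λ).restrictScalars ℂ) _ ≠ 0
    rw [h2]
    intro h0
    apply h
    rw [← h0]
    congr 2
    funext y
    unfold arg
    split_ifs with hy
    · change _ = (aeval c : MvPolynomial (Fin n) K →ₐ[K] Λ) _
      rw [aeval_C]
    · change _ = (aeval c : MvPolynomial (Fin n) K →ₐ[K] Λ) _
      unfold dp
      rw [map_sum]
      refine Finset.sum_congr rfl fun i _ => ?_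
      rw [map_mul, aeval_C, aeval_X, mul_comm]

end

theorem ai_pow {K : Type} [Field K] [Algebra ℂ K] {n : ℕ} {x : Fin n → K}
    (hx : AlgebraicIndependent ℂ x) {N : ℕ} (hN : 1 ≤ N) :
    AlgebraicIndependent ℂ fun i => x i ^ N := by
  have h1 := hx.polynomial_aeval_of_transcendental (f := fun _ => (Polynomial.X ^ N : Polynomial ℂ))
    fun i => (Polynomial.transcendental_X ℂ).pow hN
  simpa using h1

/-- the symmetric differentials depend only on the derivatives of the quotients -/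
theorem sD_congr {q q0 d n v : ℕ} {ℓ : Fin q → Fin (v + 1) → ℂ} {K : Type} [Field K] [Algebra ℂ K]
    (M b : ℕ) {j1 : Fin (v + 1)} {u : Fin (v + 1) → K} (hj1 : u j1 ≠ 0)
    {D D' : Fin n → Derivation ℂ K K} (h : ∀ i j, D i (u j / u j1) = D' i (u j / u j1))
    (c : Dat ℓ q0 d) : sD M b j1 u D c = sD M b j1 u D' c := by
  have huy : u = fun j => u j1 * (u j / u j1) := by
    funext j
    field_simp
  have h1 : ∀ D : Fin n → Derivation ℂ K K, Fp u D c.R = C (u j1 ^ d) *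
      Fp (fun j => u j / u j1) D c.R := by
    intro D
    conv_lhs => rw [huy]
    exact Fp_scale c.adm _ D hj1
  have h2 : Fp (fun j => u j / u j1) D c.R = Fp (fun j => u j / u j1) D' c.R := by
    unfold Fp
    congr 2
    funext y
    unfold arg dp
    simp only [h]
  unfold sD Sc
  rw [h1, h1, h2]

/-- The form of the base. -/
theorem base {q q0 d M b n v : ℕ} {ℓ : Fin q → Fin (v + 1) → ℂ} (hG : Good ℓ d q0)
    (hd : v + 1 ≤ d) (hdq : d < q0) (hb1 : 1 ≤ b) (hb : b + d * (M + 1) = M * q0) (hn : 1 ≤ n)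
    {K : Type} [Field K] [Algebra ℂ K] {u : Fin (v + 1) → K} {j1 : Fin (v + 1)} (hj1 : u j1 ≠ 0)
    {J : Fin n → Fin (v + 1)} (hJ : AlgebraicIndependent ℂ fun c => u (J c) / u j1)
    (hne : ∀ i, lf (ℓ i) u ≠ 0) :
    ∃ N e0 : ℕ, 0 < N ∧ 0 < e0 ∧ ∃ ω : (Fin n → Derivation ℂ K K) → K, IsPluri N ω ∧
      (∀ D D' : Fin n → Derivation ℂ K K, (∀ i j, D i (u j / u j1) = D' i (u j / u j1)) →
        ω D = ω D') ∧
      (∀ P : Place ℂ K, ∀ j0, u j0 ≠ 0 → (∀ j, u j = 0 ∨ P.ord (u j0) ≤ P.ord (u j)) →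
        ∀ δ : ℝ, 0 ≤ δ → (∀ i, (P.ord (lf (ℓ i) u) = P.ord (u j0) ∨
          ((M : ℝ) + 1) * (1 - δ) ≤ P.ord (lf (ℓ i) u) - P.ord (u j0))) →
        ∀ j D, (∀ i, DerReg P (D i)) → GO P (-(N * δ)) (u j ^ e0 * ω D)) ∧
      (∀ P : Place ℂ K, ∀ j D, (∀ i, Tan P (D i)) → GO P 0 (u j ^ e0 * ω D)) ∧
      ∃ E : Fin n → Derivation ℂ K K, (∀ c l, E c (u (J l) / u j1) = if l = c then 1 else 0) ∧
        ω E ≠ 0 := by
  classical
  obtain ⟨hGP, -, -⟩ := id hG
  have hK0 : CharZero K := charZero_of_injective_algebraMap (algebraMap ℂ K).injective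
  set T : ℕ := (M + 1) * d.factorial with hT
  have hT1 : 1 ≤ T := Nat.mul_pos (Nat.succ_pos M) d.factorial_pos
  -- the dual derivations
  have hE' : ∀ c : Fin n, ∃ E : Derivation ℂ K K, ∀ l, E (u (J l) / u j1) = if l = c then 1 else 0 :=
    fun c => Pool.Agent.H135R2.VS.exists_der hJ _
  choose E hE using hE'
  -- no common zeros
  have hnz : ∀ c : Fin n → AlgebraicClosure K, c ≠ 0 → ∃ p ∈ {p : MvPolynomial (Fin n) K |
      ∃ X : Dat ℓ q0 d, p = sD M b j1 u E X}, aeval c p ≠ 0 := by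
    intro c hc
    obtain ⟨l, hl⟩ := Function.ne_iff.mp hc
    rw [Pi.zero_apply] at hl
    set D' : K → AlgebraicClosure K := fun f => ∑ i, c i * algebraMap K (AlgebraicClosure K) (E i f)
      with hD'
    set p : Fin 2 → Fin (v + 1) → AlgebraicClosure K := fun m j => if m = 0 then
      algebraMap K (AlgebraicClosure K) (u j) else D' (u j) with hp
    have hmi : Mi p := by
      refine ⟨j1, J l, ?_⟩
      have e1 : ∀ i, u j1 * E i (u (J l)) - u (J l) * E i (u j1) =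
          u j1 ^ 2 * (if l = i then 1 else 0) := by
        intro i
        rw [← hE i l]
        have h1 : u (J l) = u (J l) / u j1 * u j1 := by field_simp
        have h2 : E i (u (J l)) = u (J l) / u j1 * E i (u j1) + u j1 * E i (u (J l) / u j1) := by
          conv_lhs => rw [h1]
          rw [Derivation.leibniz, smul_eq_mul, smul_eq_mul]
        rw [h2]
        field_simp
        ring
      have e2 : p 0 j1 * p 1 (J l) - p 0 (J l) * p 1 j1 =
          algebraMap K (AlgebraicClosure K) (u j1 ^ 2) * c l := by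
        simp only [hp, if_true, one_ne_zero, if_false, hD']
        rw [Finset.mul_sum, Finset.mul_sum, ← Finset.sum_sub_distrib]
        have e3 : ∀ i, algebraMap K (AlgebraicClosure K) (u j1) * (c i *
            algebraMap K (AlgebraicClosure K) (E i (u (J l)))) -
            algebraMap K (AlgebraicClosure K) (u (J l)) * (c i *
            algebraMap K (AlgebraicClosure K) (E i (u j1))) =
            c i * algebraMap K (AlgebraicClosure K) (u j1 ^ 2 * (if l = i then 1 else 0)) := by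
          intro i
          rw [← e1, map_sub, map_mul, map_mul]
          ring
        rw [Finset.sum_congr rfl fun i _ => e3 i]
        simp only [mul_ite, mul_one, mul_zero, apply_ite (algebraMap K (AlgebraicClosure K)),
          map_zero, Finset.sum_ite_eq, Finset.mem_univ, if_true]
        ring
      rw [e2]
      refine mul_ne_zero ?_ hl
      rw [Ne, FaithfulSMul.algebraMap_eq_zero_iff]
      exact pow_ne_zero _ hj1
    obtain ⟨s, w, R, h1, h2, h3, h4, h5⟩ := exists_adm hG hdq hmi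
    refine ⟨_, ⟨⟨s, w, R, h1, h2, h3, h4⟩, rfl⟩, sD_ne hj1 hne ?_⟩
    exact h5
  obtain ⟨m', H, N0, hH, hN0⟩ := null (K := K) (L := AlgebraicClosure K) _ hnz
  choose X hX using hH
  obtain ⟨z, N1, hN1⟩ := Pool.Agent.Y212.SD.t_GP ℂ K n m' T N0 hT1 H (fun j => by
    rw [hX j]; exact sD_hom M b j1 u E (X j)) hN0
  -- the forms
  set a : (Fin n → Derivation ℂ K K) → Fin n → MvPolynomial (Fin n) K := fun D i =>
    ∑ j, C (algebraMap ℂ K (z i j)) * sD M b j1 u D (X j) with ha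
  have hahom : ∀ D i, (a D i).IsHomogeneous T := by
    intro D i
    refine IsHomogeneous.sum _ _ _ fun j _ => ?_
    have := (isHomogeneous_C (Fin n) (algebraMap ℂ K (z i j))).mul (sD_hom M b j1 u D (X j))
    rwa [zero_add] at this
  have haE : ∀ β : Fin n →₀ ℕ, β.degree = N1 → (monomial β 1 : MvPolynomial (Fin n) K) ∈
      Ideal.span (Set.range (a E)) := by
    intro β hβ
    have h1 := hN1 β hβ
    have e : (fun i => ∑ j, C (algebraMap ℂ K (z i j)) * H j) = a E := by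
      funext i
      exact Finset.sum_congr rfl fun j _ => by rw [hX j]
    rwa [e] at h1
  obtain ⟨Q, W, hW, hQ, hQ0⟩ := exists_semi (k := ℂ) hn hT1 (a E) (hahom E) haE
  have hQne : Q ≠ 0 := by
    rintro rfl
    exact hQ0 (map_zero _)
  obtain ⟨g, hg1, hg⟩ := exists_degree hn hT1 hW hQ hQne
  -- the form
  set ω0 : (Fin n → Derivation ℂ K K) → K := fun D => aeval (cof T (a D)) Q with hω0
  have hpl : IsPluri W ω0 := by
    intro A D
    have h1 := Pool.Agent.Y301.SD.t_DENS ℂ K n T W Q hQ A (cof T (a D))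
    rw [hω0]
    simp only
    rw [← h1]
    congr 2
    funext p
    unfold Pool.Agent.Y174.SD.trans
    have h2 : Pool.Agent.Y174.SD.fm (cof T (a D)) p.1 = a D p.1 :=
      Pool.Agent.Y174.SD.fm_coeff (hahom D) p.1
    rw [h2]
    unfold cof
    congr 1
    simp only [ha]
    rw [map_sum]
    refine Finset.sum_congr rfl fun j _ => ?_
    rw [sD_trans, map_mul]
    congr 1
    exact ((Pool.Agent.Y174.SD.lsub A).commutes _).symm
  have hloc : ∀ (P : Place ℂ K) (j0 : Fin (v + 1)), u j0 ≠ 0 →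
      (∀ j, u j = 0 ∨ P.ord (u j0) ≤ P.ord (u j)) → ∀ δ : ℝ, 0 ≤ δ →
      ∀ (i1 : Fin n) (D : Fin n → Derivation ℂ K K), (∀ i, i ≠ i1 → Tan P (D i)) →
      (Tan P (D i1) ∨ (DerReg P (D i1) ∧ ∀ i, (P.ord (lf (ℓ i) u) = P.ord (u j0) ∨
      ((M : ℝ) + 1) * (1 - δ) ≤ P.ord (lf (ℓ i) u) - P.ord (u j0)))) →
      ∀ j, GO P (-(W * δ)) (u j ^ (b * g) * ω0 D) := by
    intro P j0 hj0 hmin δ hδ i1 D hD hm j
    have h1 : ∀ i, MG P δ i1 (-(b * P.ord (u j0))) (a D i) := by
      intro i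
      refine MG.sum _ fun c _ => ?_
      refine ((MG.C (GO.const _)).mul (sD_local hGP (by omega) hb hD hδ hne hj0 hmin hm j1
        (X c))).mono (by rw [zero_add])
    have h2 := semi_local hQ hg h1
    have h3 : GO P (b * g * P.ord (u j0)) (u j ^ (b * g)) := by
      rcases hmin j with h0 | h0
      · left
        rw [h0]
        exact zero_pow (Nat.mul_pos hb1 hg1).ne'
      · right
        rw [P.ord_pow]
        push_cast
        have : (P.ord (u j0) : ℝ) ≤ P.ord (u j) := by exact_mod_cast h0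
        exact mul_le_mul_of_nonneg_left this (by positivity)
    refine (h3.mul h2).mono (le_of_eq ?_)
    ring
  have hmin : ∀ P : Place ℂ K, ∃ j0, u j0 ≠ 0 ∧ ∀ j, u j = 0 ∨ P.ord (u j0) ≤ P.ord (u j) := by
    intro P
    obtain ⟨j0, h0, h1⟩ := Finset.exists_min_image (Finset.univ.filter fun j => u j ≠ 0)
      (fun j => P.ord (u j)) ⟨j1, Finset.mem_filter.mpr ⟨Finset.mem_univ _, hj1⟩⟩
    refine ⟨j0, (Finset.mem_filter.mp h0).2, fun j => ?_⟩
    by_cases hj : u j = 0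
    · exact Or.inl hj
    · exact Or.inr (h1 j (Finset.mem_filter.mpr ⟨Finset.mem_univ _, hj⟩))
  refine ⟨W, b * g, hW, Nat.mul_pos hb1 hg1, ω0, hpl, ?_, ?_, ?_, E, hE, hQ0⟩
  · intro D D' h
    have h1 : a D = a D' := by
      funext i
      exact Finset.sum_congr rfl fun j _ => by rw [sD_congr M b hj1 h]
    change aeval (cof T (a D)) Q = aeval (cof T (a D')) Q
    rw [h1]
  · intro P j0 hj0 hmin' δ hδ hm j D hD
    obtain ⟨i1, A, hA, hA1, hA2⟩ := exists_frame P hn D hD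
    have h1 := hloc P j0 hj0 hmin' δ hδ i1 _ hA2 (Or.inr ⟨hA1 i1, hm⟩) j
    rw [hpl A D, hA, one_pow, one_mul] at h1
    exact h1
  · intro P j D hD
    obtain ⟨j0, hj0, hmin'⟩ := hmin P
    have h1 := hloc P j0 hj0 hmin' 0 le_rfl ⟨0, hn⟩ D (fun i _ => hD i) (Or.inl (hD _)) j
    rw [mul_zero, neg_zero] at h1
    exact h1

/-- The main theorem for generically finite maps. -/
theorem main {q q0 d M b n v : ℕ} {ℓ : Fin q → Fin (v + 1) → ℂ} (hG : Good ℓ d q0)
    (hd : v + 1 ≤ d) (hdq : d < q0) (hb1 : 1 ≤ b) (hb : b + d * (M + 1) = M * q0) (hn : 1 ≤ n)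
    {K : Type} [Field K] [Algebra ℂ K] {u : Fin (v + 1) → K} {j1 : Fin (v + 1)} (hj1 : u j1 ≠ 0)
    {J : Fin n → Fin (v + 1)} (hJ : AlgebraicIndependent ℂ fun c => u (J c) / u j1)
    (hne : ∀ i, lf (ℓ i) u ≠ 0) :
    ∃ N : ℕ, 0 < N ∧ ∃ ω : Fin (n + 1) → (Fin n → Derivation ℂ K K) → K,
      (∀ j, IsPluri N (ω j)) ∧
      (∀ P : Place ℂ K, ∀ j0, u j0 ≠ 0 → (∀ j, u j = 0 ∨ P.ord (u j0) ≤ P.ord (u j)) →
        ∀ δ : ℝ, 0 ≤ δ → (∀ i, (P.ord (lf (ℓ i) u) = P.ord (u j0) ∨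
          ((M : ℝ) + 1) * (1 - δ) ≤ P.ord (lf (ℓ i) u) - P.ord (u j0))) →
        ∀ j D, (∀ i, DerReg P (D i)) → GO P (-(N * δ)) (ω j D)) ∧
      (∀ P : Place ℂ K, ∀ j D, (∀ i, Tan P (D i)) → GO P 0 (ω j D)) ∧
      ∃ D, ω 0 D ≠ 0 ∧ AlgebraicIndependent ℂ (fun i : Fin n => ω i.succ D / ω 0 D) := by
  obtain ⟨N, e0, hN, he0, ω0, h1, h2, h3, h4, E, hE, hE0⟩ := base hG hd hdq hb1 hb hn hj1 hJ hne
  set ω : Fin (n + 1) → (Fin n → Derivation ℂ K K) → K := fun c D =>
    u (Fin.cons (α := fun _ => Fin (v + 1)) j1 J c) ^ e0 * ω0 D with hω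
  refine ⟨N, hN, ω, ?_, fun P j0 hj0 hmin δ hδ hm j D hD => h3 P j0 hj0 hmin δ hδ hm _ D hD,
    fun P j D hD => h4 P _ D hD, E, ?_, ?_⟩
  · intro c A D
    simp only [hω]
    rw [h1 A D]
    ring
  · simp only [hω, Fin.cons_zero]
    exact mul_ne_zero (pow_ne_zero _ hj1) hE0
  · have h5 := ai_pow hJ (N := e0) he0
    have e : (fun i : Fin n => ω i.succ E / ω 0 E) = fun i => (u (J i) / u j1) ^ e0 := by
      funext i
      simp only [hω, Fin.cons_zero, Fin.cons_succ]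
      rw [mul_div_mul_right _ _ hE0, div_pow]
    rw [e]
    exact h5

end Pool.Agent.V8H90.AJ
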