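import Pool.Agent.V8H90.AJ.Frame
import Pool.Agent.V8H90.AJ.Comp
import Pool.Agent.V8H90.JT.Bd

/-!
Symmetric differentials given by polynomials in a vector and its derivative.
-/

set_option autoImplicit false

open FF MvPolynomial Pool.Agent.W602.GT Pool.Agent.V8H90.JT

namespace Pool.Agent.V8H90.AJ

variable {K : Type} [Field K] [Algebra ℂ K] {n v : ℕ}

/-- a linear form at the point `u` -/
noncomputable def lf (a : Fin (v + 1) → ℂ) (u : Fin (v + 1) → K) : K :=
  ∑ j, algebraMap ℂ K (a j) * u j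

theorem lf_smul (a : Fin (v + 1) → ℂ) (f : K) (u : Fin (v + 1) → K) :
    lf a (fun j => f * u j) = f * lf a u := by
  unfold lf
  rw [Finset.mul_sum]
  exact Finset.sum_congr rfl fun j _ => by ring

theorem der_lf (D : Derivation ℂ K K) (a : Fin (v + 1) → ℂ) (u : Fin (v + 1) → K) :
    D (lf a u) = ∑ j, algebraMap ℂ K (a j) * D (u j) := by
  unfold lf
  rw [map_sum]
  refine Finset.sum_congr rfl fun j _ => ?_
  rw [Derivation.leibniz, Derivation.map_algebraMap, smul_zero, add_zero, smul_eq_mul]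

/-- the derivative of `f` along the generic combination of the vector fields -/
noncomputable def dp (D : Fin n → Derivation ℂ K K) (f : K) : MvPolynomial (Fin n) K :=
  ∑ i, C (D i f) * X i

theorem dp_mul (D : Fin n → Derivation ℂ K K) (f g : K) :
    dp D (f * g) = C f * dp D g + C g * dp D f := by
  unfold dp
  rw [Finset.mul_sum, Finset.mul_sum, ← Finset.sum_add_distrib]
  refine Finset.sum_congr rfl fun i _ => ?_
  rw [Derivation.leibniz, smul_eq_mul, smul_eq_mul, C_add, C_mul, C_mul]
  ring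

theorem dp_lf (D : Fin n → Derivation ℂ K K) (a : Fin (v + 1) → ℂ) (u : Fin (v + 1) → K) :
    dp D (lf a u) = ∑ j, C (algebraMap ℂ K (a j)) * dp D (u j) := by
  unfold dp
  simp only [der_lf, map_sum, Finset.sum_mul, Finset.mul_sum, C_mul]
  rw [Finset.sum_comm]
  exact Finset.sum_congr rfl fun j _ => Finset.sum_congr rfl fun i _ => by ring

theorem dp_hom (D : Fin n → Derivation ℂ K K) (f : K) : (dp D f).IsHomogeneous 1 := by
  unfold dp
  refine IsHomogeneous.sum _ _ _ fun i _ => ?_
  simpa using (isHomogeneous_C (Fin n) (D i f)).mul (isHomogeneous_X K i)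

/-- the vector and its derivative -/
noncomputable def arg (u : Fin (v + 1) → K) (D : Fin n → Derivation ℂ K K)
    (y : Fin 2 × Fin (v + 1)) : MvPolynomial (Fin n) K :=
  if y.1 = 0 then C (u y.2) else dp D (u y.2)

/-- the value of `R` at the vector `u` and its derivative along the generic combination of the
vector fields -/
noncomputable def Fp (u : Fin (v + 1) → K) (D : Fin n → Derivation ℂ K K)
    (R : MvPolynomial (Fin 2 × Fin (v + 1)) ℂ) : MvPolynomial (Fin n) K := aeval (arg u D) R

theorem Fp_hom {q q0 d w : ℕ} {ℓ : Fin q → Fin (v + 1) → ℂ} {s : Fin q0 → Fin q}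
    {R : MvPolynomial (Fin 2 × Fin (v + 1)) ℂ} (hR : Adm ℓ s d w R) (u : Fin (v + 1) → K)
    (D : Fin n → Derivation ℂ K K) : (Fp u D R).IsHomogeneous w := by
  unfold Fp
  rw [aeval_def, eval₂_eq]
  refine IsHomogeneous.sum _ _ _ fun t ht => ?_
  have h1 : (∏ x ∈ t.support, arg u D x ^ t x).IsHomogeneous
      (∑ x ∈ t.support, (x.1 : ℕ) * t x) := by
    refine IsHomogeneous.prod _ _ _ fun x _ => ?_
    have h2 : (arg u D x).IsHomogeneous (x.1 : ℕ) := by
      obtain ⟨m, j⟩ := x
      unfold arg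
      fin_cases m
      · simpa using isHomogeneous_C (Fin n) (u j)
      · simpa using dp_hom D (u j)
    exact h2.pow _
  have h3 : ∑ x ∈ t.support, (x.1 : ℕ) * t x = w := hR.wt t (mem_support_iff.mp ht)
  rw [h3] at h1
  have h4 := (isHomogeneous_C (Fin n) (algebraMap ℂ K (coeff t R))).mul h1
  rw [zero_add] at h4
  exact h4

theorem Fp_eq_ev (u : Fin (v + 1) → K) (D : Fin n → Derivation ℂ K K)
    (R : MvPolynomial (Fin 2 × Fin (v + 1)) ℂ) :
    Fp u D R = ev (k := 1) (fun j => PowerSeries.C (C (u j)) +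
      PowerSeries.C (dp D (u j)) * PowerSeries.X)
      (map (algebraMap ℂ (MvPolynomial (Fin n) K)) R) := by
  unfold Fp ev
  rw [eval_map, aeval_def]
  congr 1
  funext x
  obtain ⟨m, j⟩ := x
  unfold arg
  fin_cases m
  · simp
  · simp

theorem Fp_scale {q q0 d w : ℕ} {ℓ : Fin q → Fin (v + 1) → ℂ} {s : Fin q0 → Fin q}
    {R : MvPolynomial (Fin 2 × Fin (v + 1)) ℂ} (hR : Adm ℓ s d w R) (u : Fin (v + 1) → K)
    (D : Fin n → Derivation ℂ K K) {f : K} (hf : f ≠ 0) :
    Fp (fun j => f * u j) D R = C (f ^ d) * Fp u D R := by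
  rw [Fp_eq_ev u D R]
  set φ := algebraMap ℂ (MvPolynomial (Fin n) K) with hφ
  set g : PowerSeries (MvPolynomial (Fin n) K) :=
    1 + PowerSeries.C (C f⁻¹ * dp D f) * PowerSeries.X with hg
  rw [← hR.inv.map φ g _ (by rw [hg, pow_one]; exact ⟨PowerSeries.C (C f⁻¹ * dp D f), by ring⟩)]
  unfold ev
  rw [C_pow, ← eval_of_hom (hR.hom.map φ)]
  unfold Fp
  rw [aeval_def, eval_map]
  congr 1
  funext x
  obtain ⟨m, j⟩ := x
  have hff : (C f : MvPolynomial (Fin n) K) * C f⁻¹ = 1 := by
    rw [← C_mul, mul_inv_cancel₀ hf, C_1]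
  unfold arg
  fin_cases m
  · simp [hg]
  · have e : (1 + PowerSeries.C (C f⁻¹ * dp D f) * PowerSeries.X) *
        (PowerSeries.C (C (u j)) + PowerSeries.C (dp D (u j)) * PowerSeries.X) =
        PowerSeries.C (C (u j)) + PowerSeries.C (dp D (u j) + C (u j) * (C f⁻¹ * dp D f)) *
          PowerSeries.X + PowerSeries.C (C f⁻¹ * dp D f * dp D (u j)) * PowerSeries.X ^ 2 := by
      simp only [map_add, map_mul]
      ring
    change (if (1 : Fin 2) = 0 then C (f * u j) else dp D (f * u j)) = C f *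
      PowerSeries.coeff 1 ((1 + PowerSeries.C (C f⁻¹ * dp D f) * PowerSeries.X) *
        (PowerSeries.C (C (u j)) + PowerSeries.C (dp D (u j)) * PowerSeries.X))
    rw [e, if_neg (by decide), dp_mul]
    simp only [map_add, PowerSeries.coeff_C_mul, PowerSeries.coeff_X_pow]
    have e2 : PowerSeries.coeff 1 (PowerSeries.C (C (u j) : MvPolynomial (Fin n) K)) = 0 := by
      rw [PowerSeries.coeff_C, if_neg one_ne_zero]
    rw [e2]
    simp only [zero_add]
    norm_num
    linear_combination (-(C (u j) * dp D f)) * hff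

theorem sum_app {ι : Type*} (s : Finset ι) (D : ι → Derivation ℂ K K) (f : K) :
    (∑ i ∈ s, D i) f = ∑ i ∈ s, D i f := by
  classical
  induction s using Finset.induction_on with
  | empty => simp
  | insert a s ha ih => rw [Finset.sum_insert ha, Finset.sum_insert ha, Derivation.add_apply, ih]

theorem Fp_trans (u : Fin (v + 1) → K) (D : Fin n → Derivation ℂ K K)
    (A : Matrix (Fin n) (Fin n) K) (R : MvPolynomial (Fin 2 × Fin (v + 1)) ℂ) :
    Fp u (fun i => ∑ l, A i l • D l) R =
      (aeval (fun c => ∑ i, C (A i c) * X i) :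
        MvPolynomial (Fin n) K →ₐ[K] MvPolynomial (Fin n) K) (Fp u D R) := by
  unfold Fp
  have h1 : ∀ f : K, dp (fun i => ∑ l, A i l • D l) f =
      (aeval (fun c => ∑ i, C (A i c) * X i) :
        MvPolynomial (Fin n) K →ₐ[K] MvPolynomial (Fin n) K) (dp D f) := by
    intro f
    unfold dp
    rw [map_sum]
    have e1 : ∀ i, (∑ l, A i l • D l) f = ∑ l, A i l * D l f := by
      intro i
      rw [sum_app]
      rfl
    simp only [e1, map_mul, aeval_X, map_sum, Finset.sum_mul, Finset.mul_sum, aeval_C,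
      algebraMap_eq]
    rw [Finset.sum_comm]
    exact Finset.sum_congr rfl fun j _ => Finset.sum_congr rfl fun i _ => by ring
  have h2 := comp_aeval_apply (R := ℂ) (f := arg u D) ((aeval (fun c => ∑ i, C (A i c) * X i) :
        MvPolynomial (Fin n) K →ₐ[K] MvPolynomial (Fin n) K).restrictScalars ℂ) R
  refine Eq.trans ?_ h2.symm
  congr 2
  funext x
  unfold arg
  split_ifs with h
  · change _ = (aeval (fun c => ∑ i, C (A i c) * X i) :
        MvPolynomial (Fin n) K →ₐ[K] MvPolynomial (Fin n) K) _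
    rw [aeval_C, algebraMap_eq]
  · exact h1 _

end Pool.Agent.V8H90.AJ
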